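import Pool.Agent.MP_e55146_lc.Defs

section

/-! Decision trees with oracle queries. -/

namespace Pool.Agent.MP_e55146_lc

/-- Decision trees querying an oracle. -/
inductive DT (β : Type) : Type
  | leaf (z : β)
  | node (q : Str) (k : Bool → DT β)

namespace DT

variable {β : Type}

open Classical in
/-- The value computed with oracle `A`. -/
noncomputable def eval : DT β → Set Str → β
  | leaf z, _ => z
  | node q k, A => (k (decide (q ∈ A))).eval A

open Classical in
/-- The queries asked with oracle `A`. -/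
noncomputable def queries : DT β → Set Str → List Str
  | leaf _, _ => []
  | node q k, A => q :: (k (decide (q ∈ A))).queries A

/-- Depth at most `T`, all queries of length at most `L`. -/
inductive Ok (L : ℕ) : ℕ → DT β → Prop
  | leaf (T : ℕ) (z : β) : Ok L T (DT.leaf z)
  | node (T : ℕ) (q : Str) (k : Bool → DT β) (hq : q.length ≤ L) (hk : ∀ b, Ok L T (k b)) :
      Ok L (T + 1) (DT.node q k)

theorem agree (τ : DT β) (A A' : Set Str) (h : ∀ q ∈ τ.queries A', (q ∈ A ↔ q ∈ A')) :
    τ.eval A = τ.eval A' ∧ τ.queries A = τ.queries A' := by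
  classical
  induction τ with
  | leaf z => simp [eval, queries]
  | node q k ih =>
    have hq : (q ∈ A ↔ q ∈ A') := h q (by simp [queries])
    have hd : decide (q ∈ A) = decide (q ∈ A') := by simp [hq]
    have := ih (decide (q ∈ A')) (fun q' hq' => h q' (by simp [queries, hq']))
    simp only [eval, queries, hd]
    exact ⟨this.1, by rw [this.2]⟩

theorem Ok.length_queries {L T : ℕ} {τ : DT β} (h : Ok L T τ) (A : Set Str) :
    (τ.queries A).length ≤ T := by
  induction h with
  | leaf T z => simp [queries]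
  | node T q k hq hk ih => simpa [queries] using ih _

theorem Ok.len_of_mem {L T : ℕ} {τ : DT β} (h : Ok L T τ) (A : Set Str) :
    ∀ q ∈ τ.queries A, q.length ≤ L := by
  induction h with
  | leaf T z => simp [queries]
  | node T q k hq hk ih =>
    intro q' hq'
    simp only [queries, List.mem_cons] at hq'
    rcases hq' with rfl | hq'
    · exact hq
    · exact ih _ q' hq'

end DT

theorem firstBits_succ (X : ℕ → Bool) (n : ℕ) :
    firstBits X (n + 1) = firstBits X n ++ [X n] := by
  simp [firstBits, List.range_succ]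

@[simp] theorem length_firstBits (X : ℕ → Bool) (n : ℕ) : (firstBits X n).length = n := by
  simp [firstBits]

@[simp] theorem firstBits_zero (X : ℕ → Bool) : firstBits X 0 = [] := by
  simp [firstBits]

theorem firstBits_congr {X X' : ℕ → Bool} {n : ℕ} (h : ∀ i < n, X i = X' i) :
    firstBits X n = firstBits X' n := by
  unfold firstBits
  apply List.map_congr_left
  intro i hi
  exact h i (List.mem_range.1 hi)

theorem take_firstBits (X : ℕ → Bool) {m n : ℕ} (h : m ≤ n) :
    (firstBits X n).take m = firstBits X m := by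
  unfold firstBits
  rw [← List.map_take, List.take_range, Nat.min_eq_left h]

end Pool.Agent.MP_e55146_lc

end

section

/-! The product probability space of hidden witnesses, and boxes in it. -/

namespace Pool.Agent.MP_e55146_lc

open MeasureTheory ProbabilityTheory

/-- One block: a bit and a witness position. -/
abbrev Blk (l : ℕ) : Type := Bool × (Fin l → Bool)

/-- The sample space. -/
abbrev Om (ℓ : ℕ → ℕ) : Type := (i : ℕ) → Blk (ℓ i)

/-- The product of uniform measures. -/
noncomputable def Pr (ℓ : ℕ → ℕ) : Measure (Om ℓ) :=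
  Measure.infinitePi (fun i => uniformOn (Set.univ : Set (Blk (ℓ i))))

instance (ℓ : ℕ → ℕ) : IsProbabilityMeasure (Pr ℓ) := by
  unfold Pr; infer_instance

theorem card_Blk (l : ℕ) : Fintype.card (Blk l) = 2 * 2 ^ l := by
  simp [Blk]

/-- A box: finitely many coordinates are restricted to given finite sets. -/
structure Box (ℓ : ℕ → ℕ) : Type where
  s : Finset ℕ
  B : (i : ℕ) → Finset (Blk (ℓ i))

variable {ℓ : ℕ → ℕ}

namespace Box

/-- The set of points of a box. -/
def set (b : Box ℓ) : Set (Om ℓ) := Set.pi (b.s : Set ℕ) (fun i => (b.B i : Set (Blk (ℓ i))))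

/-- The side of a box at a coordinate. -/
def get (b : Box ℓ) (x : ℕ) : Finset (Blk (ℓ x)) := if x ∈ b.s then b.B x else Finset.univ

/-- Cutting a box by a condition on one coordinate. -/
def cut (b : Box ℓ) (x : ℕ) (p : Blk (ℓ x) → Prop) [DecidablePred p] : Box ℓ :=
  ⟨insert x b.s, Function.update b.B x ((b.get x).filter p)⟩

theorem mem_set (b : Box ℓ) (ω : Om ℓ) : ω ∈ b.set ↔ ∀ i ∈ b.s, ω i ∈ b.B i := by
  simp [set, Set.mem_pi]

theorem mem_cut (b : Box ℓ) (x : ℕ) (p : Blk (ℓ x) → Prop) [DecidablePred p] (ω : Om ℓ) :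
    ω ∈ (b.cut x p).set ↔ ω ∈ b.set ∧ p (ω x) := by
  simp only [mem_set, cut, Finset.mem_insert, get]
  constructor
  · intro h
    have hx := h x (Or.inl rfl)
    simp only [Function.update_self, Finset.mem_filter] at hx
    refine ⟨fun i hi => ?_, hx.2⟩
    by_cases hix : i = x
    · subst hix
      simpa [hi] using hx.1
    · have := h i (Or.inr hi)
      rwa [Function.update_of_ne hix] at this
  · rintro ⟨h, hp⟩ i hi
    by_cases hix : i = x
    · subst hix
      simp only [Function.update_self, Finset.mem_filter]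
      refine ⟨?_, hp⟩
      split_ifs with hs
      · exact h i hs
      · exact Finset.mem_univ _
    · rw [Function.update_of_ne hix]
      rcases hi with hi | hi
      · exact absurd hi hix
      · exact h i hi

/-- The product weight of a box. -/
def wt (f : (x : ℕ) → Finset (Blk (ℓ x)) → ℝ) (b : Box ℓ) : ℝ := ∏ x ∈ b.s, f x (b.B x)

/-- The product weight of a box away from one coordinate. -/
def rest (f : (x : ℕ) → Finset (Blk (ℓ x)) → ℝ) (b : Box ℓ) (x : ℕ) : ℝ :=
  ∏ z ∈ b.s.erase x, f z (b.B z)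

theorem wt_eq (f : (x : ℕ) → Finset (Blk (ℓ x)) → ℝ) (hf : ∀ x, f x Finset.univ = 1)
    (b : Box ℓ) (x : ℕ) : b.wt f = b.rest f x * f x (b.get x) := by
  unfold wt rest get
  split_ifs with hx
  · rw [Finset.prod_erase_mul _ _ hx]
  · rw [Finset.erase_eq_of_notMem hx, hf, mul_one]

theorem wt_cut (f : (x : ℕ) → Finset (Blk (ℓ x)) → ℝ)
    (b : Box ℓ) (x : ℕ) (p : Blk (ℓ x) → Prop) [DecidablePred p] :
    (b.cut x p).wt f = b.rest f x * f x ((b.get x).filter p) := by
  unfold wt rest cut
  simp only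
  rw [← Finset.prod_erase_mul _ _ (Finset.mem_insert_self x b.s), Finset.erase_insert_eq_erase]
  congr 1
  · apply Finset.prod_congr rfl
    intro z hz
    rw [Function.update_of_ne (Finset.ne_of_mem_erase hz)]
  · simp

theorem rest_nonneg (f : (x : ℕ) → Finset (Blk (ℓ x)) → ℝ) (hf : ∀ x B, 0 ≤ f x B)
    (b : Box ℓ) (x : ℕ) : 0 ≤ b.rest f x :=
  Finset.prod_nonneg fun _ _ => hf _ _

theorem wt_nonneg (f : (x : ℕ) → Finset (Blk (ℓ x)) → ℝ) (hf : ∀ x B, 0 ≤ f x B)
    (b : Box ℓ) : 0 ≤ b.wt f :=
  Finset.prod_nonneg fun _ _ => hf _ _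

end Box

/-- The uniform probability of a finite set in a block. -/
noncomputable def f0 (ℓ : ℕ → ℕ) (x : ℕ) (B : Finset (Blk (ℓ x))) : ℝ :=
  (B.card : ℝ) / (2 * 2 ^ ℓ x)

theorem f0_univ (x : ℕ) : f0 ℓ x Finset.univ = 1 := by
  unfold f0
  rw [Finset.card_univ, card_Blk]
  push_cast
  field_simp

theorem f0_nonneg (x : ℕ) (B : Finset (Blk (ℓ x))) : 0 ≤ f0 ℓ x B := by
  unfold f0; positivity

theorem Pr_box (b : Box ℓ) : (Pr ℓ).real b.set = b.wt (f0 ℓ) := by
  unfold Box.set Box.wt Pr Measure.real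
  rw [Measure.infinitePi_pi _ (fun i _ => (b.B i).measurableSet), ENNReal.toReal_prod]
  apply Finset.prod_congr rfl
  intro x _
  rw [uniformOn_univ, Measure.count_apply_finset, card_Blk]
  unfold f0
  simp

theorem card_filter_fst (l : ℕ) (B : Finset (Blk l)) (c : Bool) :
    (B.filter (fun z => z.1 = c)).card ≤ 2 ^ l := by
  have : (B.filter (fun z => z.1 = c)).card ≤ (Finset.univ : Finset (Fin l → Bool)).card := by
    apply Finset.card_le_card_of_injOn (fun z => z.2)
    · intro z _; simp
    · intro z hz z' hz' h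
      simp only [Finset.coe_filter, Set.mem_ofPred_eq] at hz hz'
      exact Prod.ext (hz.2.trans hz'.2.symm) h
  simpa using this

theorem card_univ_filter_fst (l : ℕ) (c : Bool) :
    ((Finset.univ : Finset (Blk l)).filter (fun z => z.1 = c)).card = 2 ^ l := by
  have : ((Finset.univ : Finset (Blk l)).filter (fun z => z.1 = c)) =
      (Finset.univ : Finset (Fin l → Bool)).image (fun y => (c, y)) := by
    ext ⟨a, y⟩
    simp [eq_comm]
  rw [this, Finset.card_image_of_injective _ (fun y y' h => (Prod.ext_iff.1 h).2)]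
  simp

end Pool.Agent.MP_e55146_lc

end

section

/-! A gambler with few oracle queries cannot win much on the hidden bits. -/

namespace Pool.Agent.MP_e55146_lc

open MeasureTheory ProbabilityTheory

variable {ℓ : ℕ → ℕ}

/-- Each oracle entry is either independent of the sample or tests one witness position. -/
def Dich (O : Om ℓ → Set Str) : Prop :=
  ∀ q : Str, (∀ ω ω', q ∈ O ω ↔ q ∈ O ω') ∨
    ∃ (x : ℕ) (y : Fin (ℓ x) → Bool), ∀ ω, q ∈ O ω ↔ ω x = (true, y)

/-- The hidden bits. -/
def bits (ω : Om ℓ) : ℕ → Bool := fun i => (ω i).1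

open Classical in
/-- The potential weight at betting position `i`. -/
noncomputable def wgt (ℓ : ℕ → ℕ) (i : ℕ) (x : ℕ) (B : Finset (Blk (ℓ x))) : ℝ :=
  if x < i then f0 ℓ x B else if ∀ z ∈ B, z.1 = true then (B.card : ℝ) / 2 ^ ℓ x else 1

theorem wgt_univ (i x : ℕ) : wgt ℓ i x Finset.univ = 1 := by
  unfold wgt
  split_ifs with h1 h2
  · exact f0_univ x
  · have := h2 (false, fun _ => false) (Finset.mem_univ _)
    simp at this
  · rfl

theorem wgt_nonneg (i x : ℕ) (B : Finset (Blk (ℓ x))) : 0 ≤ wgt ℓ i x B := by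
  unfold wgt
  split_ifs
  · exact f0_nonneg x B
  · positivity
  · exact zero_le_one

theorem f0_le_one (x : ℕ) (B : Finset (Blk (ℓ x))) : f0 ℓ x B ≤ 1 := by
  unfold f0
  rw [div_le_one (by positivity)]
  have := Finset.card_le_univ B
  rw [card_Blk] at this
  exact_mod_cast this

theorem f0_le_wgt (i x : ℕ) (B : Finset (Blk (ℓ x))) : f0 ℓ x B ≤ wgt ℓ i x B := by
  unfold wgt
  split_ifs
  · exact le_rfl
  · unfold f0
    apply div_le_div_of_nonneg_left (by positivity) (by positivity)
    have : (0 : ℝ) < 2 ^ ℓ x := by positivity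
    linarith
  · exact f0_le_one x B

theorem card_le_of_all_true (l : ℕ) (B : Finset (Blk l)) (h : ∀ z ∈ B, z.1 = true) :
    B.card ≤ 2 ^ l := by
  have := card_filter_fst l B true
  rwa [Finset.filter_true_of_mem h] at this

theorem wgt_le_one_of_not_lt {i x : ℕ} (h : ¬ x < i) (B : Finset (Blk (ℓ x))) :
    wgt ℓ i x B ≤ 1 := by
  unfold wgt
  rw [if_neg h]
  split_ifs with h2
  · rw [div_le_one (by positivity)]
    exact_mod_cast card_le_of_all_true _ B h2
  · exact le_rfl

theorem wgt_split (hℓ : Monotone ℓ) (i x : ℕ) (B : Finset (Blk (ℓ x))) (y : Fin (ℓ x) → Bool) :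
    wgt ℓ i x (B.filter (fun z => z = (true, y))) + wgt ℓ i x (B.filter (fun z => ¬ z = (true, y)))
      ≤ (1 + 1 / 2 ^ ℓ i) * wgt ℓ i x B := by
  have hc : ((B.filter (fun z => z = (true, y))).card : ℝ) +
      ((B.filter (fun z => ¬ z = (true, y))).card : ℝ) = B.card := by
    exact_mod_cast Finset.card_filter_add_card_filter_not (s := B) (fun z => z = (true, y))
  have hpos : (0 : ℝ) ≤ 1 / 2 ^ ℓ i := by positivity
  have hw := wgt_nonneg (ℓ := ℓ) i x B
  by_cases hx : x < i
  · have : wgt ℓ i x (B.filter (fun z => z = (true, y))) +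
        wgt ℓ i x (B.filter (fun z => ¬ z = (true, y))) = wgt ℓ i x B := by
      simp only [wgt, if_pos hx, f0]
      rw [← add_div, hc]
    rw [this]; nlinarith
  · by_cases hB : ∀ z ∈ B, z.1 = true
    · have h1 : ∀ z ∈ B.filter (fun z => z = (true, y)), z.1 = true :=
        fun z hz => hB z (Finset.mem_filter.1 hz).1
      have h2 : ∀ z ∈ B.filter (fun z => ¬ z = (true, y)), z.1 = true :=
        fun z hz => hB z (Finset.mem_filter.1 hz).1
      have : wgt ℓ i x (B.filter (fun z => z = (true, y))) +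
          wgt ℓ i x (B.filter (fun z => ¬ z = (true, y))) = wgt ℓ i x B := by
        simp only [wgt, if_neg hx, if_pos hB, if_pos h1, if_pos h2]
        rw [← add_div, hc]
      rw [this]; nlinarith
    · have hB1 : wgt ℓ i x B = 1 := by simp only [wgt, if_neg hx, if_neg hB]
      have h1 : ∀ z ∈ B.filter (fun z => z = (true, y)), z.1 = true := by
        intro z hz
        rw [(Finset.mem_filter.1 hz).2]
      have hcard : (B.filter (fun z => z = (true, y))).card ≤ 1 := by
        apply Finset.card_le_one.2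
        intro a ha b hb
        rw [(Finset.mem_filter.1 ha).2, (Finset.mem_filter.1 hb).2]
      have h3 : wgt ℓ i x (B.filter (fun z => z = (true, y))) ≤ 1 / 2 ^ ℓ i := by
        simp only [wgt, if_neg hx, if_pos h1]
        have hle : (2 : ℝ) ^ ℓ i ≤ 2 ^ ℓ x :=
          pow_le_pow_right₀ (by norm_num) (hℓ (not_lt.1 hx))
        have : ((B.filter (fun z => z = (true, y))).card : ℝ) ≤ 1 := by exact_mod_cast hcard
        exact div_le_div₀ (by norm_num) this (by positivity) hle
      have h4 := wgt_le_one_of_not_lt (ℓ := ℓ) hx (B.filter (fun z => ¬ z = (true, y)))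
      rw [hB1]; linarith

theorem wgt_bet (i : ℕ) (B : Finset (Blk (ℓ i))) (p : Bool → ℝ) (hp : ∀ c, 0 ≤ p c)
    (hs : p true + p false ≤ 1) :
    2 * p true * wgt ℓ (i + 1) i (B.filter (fun z => z.1 = true)) +
      2 * p false * wgt ℓ (i + 1) i (B.filter (fun z => z.1 = false)) ≤ wgt ℓ i i B := by
  have hY : (0 : ℝ) < 2 ^ ℓ i := by positivity
  have e1 : ∀ c, 2 * p c * wgt ℓ (i + 1) i (B.filter (fun z => z.1 = c)) =
      p c * (((B.filter (fun z => z.1 = c)).card : ℝ) / 2 ^ ℓ i) := by
    intro c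
    simp only [wgt, if_pos (Nat.lt_succ_self i), f0]
    field_simp
  rw [e1, e1]
  have hle : ∀ c, ((B.filter (fun z => z.1 = c)).card : ℝ) / 2 ^ ℓ i ≤ 1 := by
    intro c
    rw [div_le_one hY]
    exact_mod_cast card_filter_fst _ B c
  have h0 := hp true
  have h1 := hp false
  unfold wgt
  rw [if_neg (lt_irrefl i)]
  split_ifs with hB
  · have : B.filter (fun z => z.1 = false) = ∅ := by
      apply Finset.filter_false_of_mem
      intro z hz
      simp [hB z hz]
    rw [this, Finset.filter_true_of_mem hB]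
    have : (0 : ℝ) ≤ (B.card : ℝ) / 2 ^ ℓ i := by positivity
    simp only [Finset.card_empty, Nat.cast_zero, zero_div, mul_zero, add_zero]
    nlinarith
  · have := hle true
    have := hle false
    nlinarith

theorem Pr_le_wt (i : ℕ) (b : Box ℓ) : (Pr ℓ).real b.set ≤ b.wt (wgt ℓ i) := by
  rw [Pr_box]
  exact Finset.prod_le_prod (fun x _ => f0_nonneg x _) (fun x _ => f0_le_wgt i x _)

theorem dt_step {β : Type} (hℓ : Monotone ℓ) {O : Om ℓ → Set Str} (hO : Dich O) (i : ℕ)
    (Ev : β → Set (Om ℓ)) (c : ℝ) (hc : 0 ≤ c)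
    (hEv : ∀ z (b : Box ℓ), (Pr ℓ).real (b.set ∩ Ev z) ≤ c * b.wt (wgt ℓ i))
    {L T : ℕ} {τ : DT β} (hτ : DT.Ok L T τ) :
    ∀ b : Box ℓ, (Pr ℓ).real (b.set ∩ {ω | ω ∈ Ev (τ.eval (O ω))}) ≤
      c * (1 + 1 / 2 ^ ℓ i) ^ T * b.wt (wgt ℓ i) := by
  classical
  have hg : (1 : ℝ) ≤ 1 + 1 / 2 ^ ℓ i := by
    have : (0 : ℝ) ≤ 1 / 2 ^ ℓ i := by positivity
    linarith
  induction hτ with
  | leaf T z =>
    intro b
    have h1 := hEv z b
    have h2 : (1 : ℝ) ≤ (1 + 1 / 2 ^ ℓ i) ^ T := one_le_pow₀ hg
    have h3 := Box.wt_nonneg (wgt ℓ i) (wgt_nonneg i) b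
    simp only [DT.eval, Set.ofPred_mem_eq]
    calc _ ≤ c * b.wt (wgt ℓ i) := h1
      _ = c * 1 * b.wt (wgt ℓ i) := by ring
      _ ≤ _ := by gcongr
  | node T q k hq hk ih =>
    intro b
    have h3 := Box.wt_nonneg (wgt ℓ i) (wgt_nonneg i) b
    rcases hO q with hconst | ⟨x, y, hxy⟩
    · let ω0 : Om ℓ := fun _ => (false, fun _ => false)
      have : {ω | ω ∈ Ev ((DT.node q k).eval (O ω))} =
          {ω | ω ∈ Ev ((k (decide (q ∈ O ω0))).eval (O ω))} := by
        ext ω
        simp only [DT.eval, Set.mem_ofPred_eq]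
        have : decide (q ∈ O ω) = decide (q ∈ O ω0) := by simp [hconst ω ω0]
        rw [this]
      rw [this]
      calc _ ≤ c * (1 + 1 / 2 ^ ℓ i) ^ T * b.wt (wgt ℓ i) := ih _ b
        _ ≤ _ := by
          gcongr
          · exact Nat.le_succ T
    · have hsub : b.set ∩ {ω | ω ∈ Ev ((DT.node q k).eval (O ω))} ⊆
          ((b.cut x (fun z => z = (true, y))).set ∩ {ω | ω ∈ Ev ((k true).eval (O ω))}) ∪
          ((b.cut x (fun z => ¬ z = (true, y))).set ∩ {ω | ω ∈ Ev ((k false).eval (O ω))}) := by
        rintro ω ⟨hb, hω⟩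
        simp only [DT.eval, Set.mem_ofPred_eq] at hω
        by_cases h : ω x = (true, y)
        · left
          have : decide (q ∈ O ω) = true := by simp [hxy, h]
          rw [this] at hω
          exact ⟨(Box.mem_cut _ _ _ _).2 ⟨hb, h⟩, hω⟩
        · right
          have : decide (q ∈ O ω) = false := by simp [hxy, h]
          rw [this] at hω
          exact ⟨(Box.mem_cut _ _ _ _).2 ⟨hb, h⟩, hω⟩
      have h1 := ih true (b.cut x (fun z => z = (true, y)))
      have h2 := ih false (b.cut x (fun z => ¬ z = (true, y)))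
      have hs := wgt_split hℓ i x (b.get x) y
      have hr := Box.rest_nonneg (wgt ℓ i) (wgt_nonneg i) b x
      rw [Box.wt_cut] at h1 h2
      rw [Box.wt_eq _ (wgt_univ i) b x]
      have hcT : 0 ≤ c * (1 + 1 / 2 ^ ℓ i) ^ T := by positivity
      calc _ ≤ _ := measureReal_mono hsub
        _ ≤ _ := measureReal_union_le _ _
        _ ≤ c * (1 + 1 / 2 ^ ℓ i) ^ T * b.rest (wgt ℓ i) x *
            (wgt ℓ i x ((b.get x).filter (fun z => z = (true, y))) +
              wgt ℓ i x ((b.get x).filter (fun z => ¬ z = (true, y)))) := by linarith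
        _ ≤ c * (1 + 1 / 2 ^ ℓ i) ^ T * b.rest (wgt ℓ i) x *
            ((1 + 1 / 2 ^ ℓ i) * wgt ℓ i x (b.get x)) := by gcongr
        _ = _ := by ring

/-- The factor won on the `r` bets starting at position `i`. -/
noncomputable def gainFrom {β : Type} (τ : Str → DT β) (π : ℕ → β → Bool → ℝ)
    (X : ℕ → Bool) (A : Set Str) (i r : ℕ) : ℝ :=
  ∏ j ∈ Finset.range r, 2 * π (i + j) ((τ (firstBits X (i + j))).eval A) (X (i + j))

theorem gainFrom_succ {β : Type} (τ : Str → DT β) (π : ℕ → β → Bool → ℝ)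
    (X : ℕ → Bool) (A : Set Str) (i r : ℕ) :
    gainFrom τ π X A i (r + 1) =
      2 * π i ((τ (firstBits X i)).eval A) (X i) * gainFrom τ π X A (i + 1) r := by
  unfold gainFrom
  rw [Finset.prod_range_succ', mul_comm]
  congr 1
  apply Finset.prod_congr rfl
  intro j _
  rw [show i + (j + 1) = i + 1 + j by ring]

theorem rest_wgt_succ (i : ℕ) (b : Box ℓ) : b.rest (wgt ℓ (i + 1)) i = b.rest (wgt ℓ i) i := by
  unfold Box.rest
  apply Finset.prod_congr rfl
  intro z hz
  have hz' : z ≠ i := Finset.ne_of_mem_erase hz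
  unfold wgt
  have : (z < i + 1 ↔ z < i) := by omega
  simp only [this]

theorem gain_aux {β : Type} (hℓ : Monotone ℓ) {O : Om ℓ → Set Str} (hO : Dich O)
    (τ : Str → DT β) (π : ℕ → β → Bool → ℝ) (hπ : ∀ i z c, 0 ≤ π i z c)
    (hπ1 : ∀ i z, π i z true + π i z false ≤ 1) (T L : ℕ → ℕ)
    (hτ : ∀ v, DT.Ok (L v.length) (T v.length) (τ v)) (r : ℕ) :
    ∀ (i : ℕ) (v : Str) (b : Box ℓ) (t : ℝ), 0 < t → v.length = i →
      (Pr ℓ).real (b.set ∩ {ω | firstBits (bits ω) i = v ∧ t ≤ gainFrom τ π (bits ω) (O ω) i r}) ≤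
        (∏ j ∈ Finset.range r, (1 + 1 / (2 : ℝ) ^ ℓ (i + j)) ^ T (i + j)) / t *
          b.wt (wgt ℓ i) := by
  induction r with
  | zero =>
    intro i v b t ht hv
    have h3 := Box.wt_nonneg (wgt ℓ i) (wgt_nonneg i) b
    simp only [gainFrom, Finset.range_zero, Finset.prod_empty]
    by_cases h1 : t ≤ 1
    · calc _ ≤ (Pr ℓ).real b.set := measureReal_mono Set.inter_subset_left
        _ ≤ b.wt (wgt ℓ i) := Pr_le_wt i b
        _ = 1 * b.wt (wgt ℓ i) := by ring
        _ ≤ _ := by
          gcongr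
          rw [le_div_iff₀ ht]; linarith
    · simp only [h1, and_false, Set.ofPred_false, Set.inter_empty, measureReal_empty]
      positivity
  | succ r ih =>
    intro i v b t ht hv
    set Γ : ℝ := ∏ j ∈ Finset.range r, (1 + 1 / (2 : ℝ) ^ ℓ (i + 1 + j)) ^ T (i + 1 + j) with hΓ
    have hΓ0 : 0 ≤ Γ := Finset.prod_nonneg fun j _ => by positivity
    let Ev : β → Set (Om ℓ) := fun z => {ω | firstBits (bits ω) i = v ∧
      t ≤ 2 * π i z (bits ω i) * gainFrom τ π (bits ω) (O ω) (i + 1) r}
    have hEv : ∀ z (b : Box ℓ), (Pr ℓ).real (b.set ∩ Ev z) ≤ Γ / t * b.wt (wgt ℓ i) := by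
      intro z b
      have hbit : ∀ c : Bool, (Pr ℓ).real ((b.cut i (fun z => z.1 = c)).set ∩
          {ω | firstBits (bits ω) (i + 1) = v ++ [c] ∧
            t ≤ 2 * π i z c * gainFrom τ π (bits ω) (O ω) (i + 1) r}) ≤
          Γ / t * (b.rest (wgt ℓ i) i *
            (2 * π i z c * wgt ℓ (i + 1) i ((b.get i).filter (fun z => z.1 = c)))) := by
        intro c
        have hr := Box.rest_nonneg (wgt ℓ i) (wgt_nonneg i) b i
        have hw := wgt_nonneg (ℓ := ℓ) (i + 1) i ((b.get i).filter (fun z => z.1 = c))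
        rcases (hπ i z c).eq_or_lt with h0 | h0
        · have : ¬ t ≤ 0 := not_le.2 ht
          simp [← h0, this]
        · have := ih (i + 1) (v ++ [c]) (b.cut i (fun z => z.1 = c)) (t / (2 * π i z c))
            (by positivity) (by simp [hv])
          rw [Box.wt_cut, rest_wgt_succ] at this
          have e : {ω : Om ℓ | firstBits (bits ω) (i + 1) = v ++ [c] ∧
              t ≤ 2 * π i z c * gainFrom τ π (bits ω) (O ω) (i + 1) r} =
              {ω | firstBits (bits ω) (i + 1) = v ++ [c] ∧
              t / (2 * π i z c) ≤ gainFrom τ π (bits ω) (O ω) (i + 1) r} := by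
            ext ω
            simp only [Set.mem_ofPred_eq]
            rw [div_le_iff₀ (by positivity), mul_comm (gainFrom τ π (bits ω) (O ω) (i + 1) r)]
          rw [e]
          refine this.trans (le_of_eq ?_)
          rw [← hΓ]
          field_simp
      have hsub : b.set ∩ Ev z ⊆
          ((b.cut i (fun z => z.1 = true)).set ∩
            {ω | firstBits (bits ω) (i + 1) = v ++ [true] ∧
              t ≤ 2 * π i z true * gainFrom τ π (bits ω) (O ω) (i + 1) r}) ∪
          ((b.cut i (fun z => z.1 = false)).set ∩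
            {ω | firstBits (bits ω) (i + 1) = v ++ [false] ∧
              t ≤ 2 * π i z false * gainFrom τ π (bits ω) (O ω) (i + 1) r}) := by
        rintro ω ⟨hb, hv', hg⟩
        cases hc : bits ω i
        · right
          refine ⟨(Box.mem_cut _ _ _ _).2 ⟨hb, hc⟩, ?_, ?_⟩
          · rw [firstBits_succ, hv', hc]
          · rwa [hc] at hg
        · left
          refine ⟨(Box.mem_cut _ _ _ _).2 ⟨hb, hc⟩, ?_, ?_⟩
          · rw [firstBits_succ, hv', hc]
          · rwa [hc] at hg
      have hbet := wgt_bet (ℓ := ℓ) i (b.get i) (π i z) (hπ i z) (hπ1 i z)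
      have hr := Box.rest_nonneg (wgt ℓ i) (wgt_nonneg i) b i
      have h1 := hbit true
      have h2 := hbit false
      have hΓt : 0 ≤ Γ / t := by positivity
      rw [Box.wt_eq _ (wgt_univ i) b i]
      calc _ ≤ _ := measureReal_mono hsub
        _ ≤ _ := measureReal_union_le _ _
        _ ≤ Γ / t * (b.rest (wgt ℓ i) i *
            (2 * π i z true * wgt ℓ (i + 1) i ((b.get i).filter (fun z => z.1 = true)) +
              2 * π i z false * wgt ℓ (i + 1) i ((b.get i).filter (fun z => z.1 = false)))) := by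
          linarith
        _ ≤ _ := by gcongr
    have key := dt_step hℓ hO i Ev (Γ / t) (by positivity) hEv (hτ v) b
    have e : {ω : Om ℓ | firstBits (bits ω) i = v ∧ t ≤ gainFrom τ π (bits ω) (O ω) i (r + 1)} =
        {ω | ω ∈ Ev ((τ v).eval (O ω))} := by
      ext ω
      simp only [Ev, Set.mem_ofPred_eq, gainFrom_succ]
      constructor
      · rintro ⟨h1, h2⟩
        exact ⟨h1, by rwa [h1] at h2⟩
      · rintro ⟨h1, h2⟩
        exact ⟨h1, by rwa [h1]⟩
    rw [e]
    refine key.trans (le_of_eq ?_)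
    rw [Finset.prod_range_succ', hv]
    have : ∏ j ∈ Finset.range r, (1 + 1 / (2 : ℝ) ^ ℓ (i + (j + 1))) ^ T (i + (j + 1)) = Γ := by
      rw [hΓ]
      apply Finset.prod_congr rfl
      intro j _
      rw [show i + (j + 1) = i + 1 + j by ring]
    rw [this]
    simp only [add_zero]
    ring

/-- Tail bound for the gain. -/
theorem gain_tail {β : Type} (hℓ : Monotone ℓ) {O : Om ℓ → Set Str} (hO : Dich O)
    (τ : Str → DT β) (π : ℕ → β → Bool → ℝ) (hπ : ∀ i z c, 0 ≤ π i z c)
    (hπ1 : ∀ i z, π i z true + π i z false ≤ 1) (T L : ℕ → ℕ)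
    (hτ : ∀ v, DT.Ok (L v.length) (T v.length) (τ v)) (m : ℕ) (t : ℝ) (ht : 0 < t) :
    (Pr ℓ).real {ω | t ≤ gainFrom τ π (bits ω) (O ω) 0 m} ≤
      (∏ j ∈ Finset.range m, (1 + 1 / (2 : ℝ) ^ ℓ j) ^ T j) / t := by
  have := gain_aux hℓ hO τ π hπ hπ1 T L hτ m 0 [] ⟨∅, fun _ => ∅⟩ t ht rfl
  simpa [Box.set, Box.wt] using this

end Pool.Agent.MP_e55146_lc

end

section

/-! A gambler with few oracle queries cannot guess an unlikely string early. -/

namespace Pool.Agent.MP_e55146_lc

open MeasureTheory ProbabilityTheory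

variable {ℓ : ℕ → ℕ}

/-- Remove all witnesses in blocks from `low` on. -/
def blind (low : ℕ) (ω : Om ℓ) : Om ℓ := fun x => if x < low then ω x else (false, fun _ => false)

/-- The points with the same low blocks and the same first `n` bits. -/
def atom (low n : ℕ) (ν : Om ℓ) : Box ℓ :=
  ⟨Finset.range n, fun x => Finset.univ.filter (fun z => z.1 = (ν x).1 ∧ (x < low → z = ν x))⟩

/-- The number of views in one block. -/
def nview (ℓ : ℕ → ℕ) (low x : ℕ) : ℕ := if x < low then 2 * 2 ^ ℓ x else 2

theorem nview_pos (low x : ℕ) : 0 < nview ℓ low x := by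
  unfold nview; split_ifs <;> positivity

theorem f0_atom_le (low n : ℕ) (ν : Om ℓ) (x : ℕ) :
    f0 ℓ x ((atom low n ν).B x) ≤ 1 / (nview ℓ low x : ℝ) := by
  unfold f0 atom nview
  simp only
  split_ifs with hx
  · have : (Finset.univ.filter (fun z : Blk (ℓ x) => z.1 = (ν x).1 ∧ (True → z = ν x))).card
        ≤ 1 := by
      apply Finset.card_le_one.2
      intro a ha b hb
      rw [(Finset.mem_filter.1 ha).2.2 trivial, (Finset.mem_filter.1 hb).2.2 trivial]
    have h2 : ((Finset.univ.filter
        (fun z : Blk (ℓ x) => z.1 = (ν x).1 ∧ (True → z = ν x))).card : ℝ) ≤ 1 := by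
      exact_mod_cast this
    simp only [hx]
    push_cast
    exact div_le_div_of_nonneg_right h2 (by positivity)
  · simp only [hx, false_imp_iff, and_true]
    rw [card_univ_filter_fst]
    push_cast
    apply le_of_eq
    field_simp

theorem wt_atom_le (low n : ℕ) (ν : Om ℓ) :
    (atom low n ν).wt (f0 ℓ) ≤ 1 / ((∏ x ∈ Finset.range n, nview ℓ low x : ℕ) : ℝ) := by
  unfold Box.wt
  push_cast
  rw [one_div, ← Finset.prod_inv_distrib]
  apply Finset.prod_le_prod (fun x _ => f0_nonneg x _)
  intro x _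
  rw [← one_div]
  exact f0_atom_le low n ν x

theorem half_le_f0_get_atom (low n : ℕ) (ν : Om ℓ) (x : ℕ) (hx : ¬ x < low) :
    1 / 2 ≤ f0 ℓ x ((atom low n ν).get x) := by
  unfold Box.get
  split_ifs with h
  · unfold atom f0
    simp only [hx, false_imp_iff, and_true]
    rw [card_univ_filter_fst]
    push_cast
    apply le_of_eq
    field_simp
  · rw [f0_univ]; norm_num

theorem atom_hit (hℓ : Monotone ℓ) {O : Om ℓ → Set Str} (hO : Dich O) (low n : ℕ) (ν : Om ℓ)
    (q : Str) :
    (Pr ℓ).real ((atom low n ν).set ∩ {ω | ¬ (q ∈ O ω ↔ q ∈ O (blind low ω))}) ≤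
      (atom low n ν).wt (f0 ℓ) / 2 ^ ℓ low := by
  classical
  have hw := Box.wt_nonneg (f0 ℓ) f0_nonneg (atom low n ν)
  rcases hO q with hc | ⟨x, y, hxy⟩
  · have : {ω | ¬ (q ∈ O ω ↔ q ∈ O (blind low ω))} = ∅ := by
      ext ω; simp [hc ω (blind low ω)]
    rw [this]
    simp only [Set.inter_empty, measureReal_empty]
    positivity
  · by_cases hx : x < low
    · have : {ω | ¬ (q ∈ O ω ↔ q ∈ O (blind low ω))} = ∅ := by
        ext ω; simp [hxy, blind, hx]
      rw [this]
      simp only [Set.inter_empty, measureReal_empty]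
      positivity
    · have hsub : (atom low n ν).set ∩ {ω | ¬ (q ∈ O ω ↔ q ∈ O (blind low ω))} ⊆
          ((atom low n ν).cut x (fun z => z = (true, y))).set := by
        rintro ω ⟨h1, h2⟩
        refine (Box.mem_cut _ _ _ _).2 ⟨h1, ?_⟩
        simpa [hxy, blind, hx] using h2
      have hr := Box.rest_nonneg (f0 ℓ) f0_nonneg (atom low n ν) x
      have hcard : (((atom low n ν).get x).filter (fun z => z = (true, y))).card ≤ 1 := by
        apply Finset.card_le_one.2
        intro a ha b hb
        rw [(Finset.mem_filter.1 ha).2, (Finset.mem_filter.1 hb).2]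
      have hle : (2 : ℝ) ^ ℓ low ≤ 2 ^ ℓ x :=
        pow_le_pow_right₀ (by norm_num) (hℓ (not_lt.1 hx))
      have h3 : f0 ℓ x (((atom low n ν).get x).filter (fun z => z = (true, y))) ≤
          (1 / 2) / 2 ^ ℓ low := by
        unfold f0
        have : ((((atom low n ν).get x).filter (fun z => z = (true, y))).card : ℝ) ≤ 1 := by
          exact_mod_cast hcard
        rw [div_div]
        exact div_le_div₀ (by norm_num) this (by positivity) (by linarith)
      have h4 := half_le_f0_get_atom low n ν x hx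
      calc _ ≤ _ := measureReal_mono hsub
        _ = _ := Pr_box _
        _ = _ := Box.wt_cut _ _ _ _
        _ ≤ (atom low n ν).rest (f0 ℓ) x * ((1 / 2) / 2 ^ ℓ low) := by gcongr
        _ ≤ (atom low n ν).rest (f0 ℓ) x * (f0 ℓ x ((atom low n ν).get x) / 2 ^ ℓ low) := by
          gcongr
        _ = _ := by rw [Box.wt_eq _ f0_univ _ x]; ring

theorem exists_reps (low n : ℕ) (hlow : low ≤ n) :
    ∃ R : Finset (Om ℓ), R.card ≤ ∏ x ∈ Finset.range n, nview ℓ low x ∧
      ∀ ω : Om ℓ, ∃ ν ∈ R, ω ∈ (atom low n ν).set ∧ (∀ x < n, bits ν x = bits ω x) ∧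
        blind low ν = blind low ω := by
  classical
  let C : (x : Fin n) → Finset (Blk (ℓ x)) := fun x =>
    if (x : ℕ) < low then Finset.univ
    else (Finset.univ : Finset Bool).image (fun c => (c, fun _ => false))
  let ext : ((x : Fin n) → Blk (ℓ x)) → Om ℓ := fun ν x =>
    if h : x < n then ν ⟨x, h⟩ else (false, fun _ => false)
  refine ⟨(Fintype.piFinset C).image ext, ?_, ?_⟩
  · refine Finset.card_image_le.trans ?_
    rw [Fintype.card_piFinset, ← Fin.prod_univ_eq_prod_range (fun x => nview ℓ low x) n]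
    apply Finset.prod_le_prod' 
    intro x _
    simp only [C, nview]
    split_ifs
    · rw [Finset.card_univ, card_Blk]
    · exact Finset.card_image_le.trans (by simp)
  · intro ω
    refine ⟨ext (fun x => if (x : ℕ) < low then ω x else ((ω x).1, fun _ => false)), ?_, ?_, ?_, ?_⟩
    · apply Finset.mem_image_of_mem
      rw [Fintype.mem_piFinset]
      intro x
      simp only [C]
      split_ifs
      · exact Finset.mem_univ _
      · exact Finset.mem_image_of_mem _ (Finset.mem_univ _)
    · rw [Box.mem_set]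
      intro x hx
      have hx' : x < n := Finset.mem_range.1 hx
      simp only [atom, ext, dif_pos hx', Finset.mem_filter, Finset.mem_univ, true_and]
      by_cases h : x < low <;> simp [h]
    · intro x hx
      simp only [bits, ext, dif_pos hx]
      split_ifs <;> rfl
    · funext x
      simp only [blind, ext]
      split_ifs with h1 h2
      · rfl
      · omega
      · rfl

theorem prod_nview_le (hℓ : Monotone ℓ) (low n : ℕ) (hlow : low ≤ n) :
    ∏ x ∈ Finset.range n, nview ℓ low x ≤ (2 * 2 ^ ℓ low) ^ low * 2 ^ n := by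
  rw [← Finset.prod_range_mul_prod_Ico _ hlow]
  apply Nat.mul_le_mul
  · have := Finset.prod_le_pow_card (Finset.range low) (fun x => nview ℓ low x) (2 * 2 ^ ℓ low)
      (fun x hx => by
        have hx' := Finset.mem_range.1 hx
        simp only [nview, if_pos hx']
        exact Nat.mul_le_mul_left _ (Nat.pow_le_pow_right (by norm_num) (hℓ hx'.le)))
    simpa using this
  · have := Finset.prod_le_pow_card (Finset.Ico low n) (fun x => nview ℓ low x) 2
      (fun x hx => by
        have hx' := (Finset.mem_Ico.1 hx).1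
        simp only [nview, if_neg (not_lt.2 hx'), le_refl])
    refine this.trans (Nat.pow_le_pow_right (by norm_num) ?_)
    simp

theorem guess_bound {β : Type} (hℓ : Monotone ℓ) {O : Om ℓ → Set Str} (hO : Dich O)
    (τ : Str → DT β) (T L : ℕ → ℕ) (hτ : ∀ v, DT.Ok (L v.length) (T v.length) (τ v))
    (low n Tm : ℕ) (hlow : low ≤ n) (hT : ∀ i < n, T i ≤ Tm)
    (Gs : Str → Set (Om ℓ)) (δ : ℝ) (hδ : 0 ≤ δ) (hGs : ∀ q, (Pr ℓ).real (Gs q) ≤ δ) :
    (Pr ℓ).real {ω | ∃ i < n, ∃ q ∈ (τ (firstBits (bits ω) i)).queries (O ω), ω ∈ Gs q} ≤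
      n * Tm * (1 / 2 ^ ℓ low + (2 * 2 ^ ℓ low) ^ low * 2 ^ n * δ) := by
  classical
  obtain ⟨R, hR, hrep⟩ := exists_reps (ℓ := ℓ) low n hlow
  set Z : ℕ := ∏ x ∈ Finset.range n, nview ℓ low x with hZ
  have hZpos : 0 < Z := Finset.prod_pos fun x _ => nview_pos low x
  have hZle : Z ≤ (2 * 2 ^ ℓ low) ^ low * 2 ^ n := prod_nview_le hℓ low n hlow
  let Q : Om ℓ → ℕ → Finset Str := fun ν i =>
    ((τ (firstBits (bits ν) i)).queries (O (blind low ν))).toFinset
  have hQ : ∀ ν, ∀ i < n, (Q ν i).card ≤ Tm := by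
    intro ν i hi
    refine (List.toFinset_card_le _).trans ?_
    have := (hτ (firstBits (bits ν) i)).length_queries (O (blind low ν))
    rw [length_firstBits] at this
    exact this.trans (hT i hi)
  have hsub : {ω | ∃ i < n, ∃ q ∈ (τ (firstBits (bits ω) i)).queries (O ω), ω ∈ Gs q} ⊆
      ⋃ ν ∈ R, ⋃ i ∈ Finset.range n, ⋃ q ∈ Q ν i,
        (((atom low n ν).set ∩ {ω | ¬ (q ∈ O ω ↔ q ∈ O (blind low ω))}) ∪ Gs q) := by
    rintro ω ⟨i, hi, q, hq, hG⟩
    obtain ⟨ν, hν, hat, hb, hbl⟩ := hrep ω
    have hfb : firstBits (bits ν) i = firstBits (bits ω) i :=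
      firstBits_congr fun j hj => hb j (hj.trans hi)
    simp only [Set.mem_iUnion]
    by_cases hall : ∀ q' ∈ (τ (firstBits (bits ω) i)).queries (O (blind low ω)),
        (q' ∈ O ω ↔ q' ∈ O (blind low ω))
    · have := (DT.agree _ _ _ hall).2
      refine ⟨ν, hν, i, Finset.mem_range.2 hi, q, ?_, Or.inr hG⟩
      simp only [Q, List.mem_toFinset]
      rw [hfb, hbl, ← this]
      exact hq
    · push Not at hall
      obtain ⟨q', hq', hne⟩ := hall
      refine ⟨ν, hν, i, Finset.mem_range.2 hi, q', ?_, Or.inl ⟨hat, ?_⟩⟩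
      · simp only [Q, List.mem_toFinset]
        rw [hfb, hbl]
        exact hq'
      · simp only [Set.mem_ofPred_eq]
        tauto
  have hone : ∀ ν q, (Pr ℓ).real
      (((atom low n ν).set ∩ {ω | ¬ (q ∈ O ω ↔ q ∈ O (blind low ω))}) ∪ Gs q) ≤
      1 / (Z : ℝ) / 2 ^ ℓ low + δ := by
    intro ν q
    refine (measureReal_union_le _ _).trans (add_le_add ?_ (hGs q))
    refine (atom_hit hℓ hO low n ν q).trans ?_
    gcongr
    exact wt_atom_le low n ν
  have hpos : 0 ≤ 1 / (Z : ℝ) / 2 ^ ℓ low + δ := by positivity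
  have hZR : (0 : ℝ) < Z := by exact_mod_cast hZpos
  calc _ ≤ _ := measureReal_mono hsub (measure_ne_top _ _)
    _ ≤ _ := measureReal_biUnion_finset_le _ _
    _ ≤ ∑ ν ∈ R, n * Tm * (1 / (Z : ℝ) / 2 ^ ℓ low + δ) := by
      apply Finset.sum_le_sum
      intro ν _
      refine (measureReal_biUnion_finset_le _ _).trans ?_
      calc _ ≤ ∑ i ∈ Finset.range n, Tm * (1 / (Z : ℝ) / 2 ^ ℓ low + δ) := by
            apply Finset.sum_le_sum
            intro i hi
            refine (measureReal_biUnion_finset_le _ _).trans ?_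
            calc _ ≤ ∑ q ∈ Q ν i, (1 / (Z : ℝ) / 2 ^ ℓ low + δ) :=
                  Finset.sum_le_sum fun q _ => hone ν q
              _ = (Q ν i).card * (1 / (Z : ℝ) / 2 ^ ℓ low + δ) := by
                rw [Finset.sum_const, nsmul_eq_mul]
              _ ≤ _ := by
                gcongr
                exact_mod_cast hQ ν i (Finset.mem_range.1 hi)
        _ = _ := by rw [Finset.sum_const, nsmul_eq_mul, Finset.card_range, mul_assoc]
    _ = R.card * (n * Tm * (1 / (Z : ℝ) / 2 ^ ℓ low + δ)) := by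
      rw [Finset.sum_const, nsmul_eq_mul]
    _ ≤ Z * (n * Tm * (1 / (Z : ℝ) / 2 ^ ℓ low + δ)) := by
      gcongr
    _ = n * Tm * (1 / 2 ^ ℓ low + Z * δ) := by field_simp
    _ ≤ _ := by
      gcongr
      exact_mod_cast hZle

/-- Events determined by finitely many oracle entries are measurable. -/
theorem measurableSet_local {γ : Type} {O : Om ℓ → Set Str} (hO : Dich O) (F : Set Str → γ) (L : ℕ)
    (hF : ∀ A A' : Set Str, (∀ q : Str, q.length ≤ L → (q ∈ A ↔ q ∈ A')) → F A = F A') (h : γ) :
    MeasurableSet {ω | F (O ω) = h} := by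
  classical
  have : Finite {q : Str // q.length ≤ L} := List.finite_length_le Bool L
  let g : Om ℓ → ({q : Str // q.length ≤ L} → Bool) := fun ω q => decide (q.1 ∈ O ω)
  have hg : Measurable g := by
    apply measurable_pi_lambda
    intro q
    rcases hO q.1 with hc | ⟨x, y, hxy⟩
    · let ω0 : Om ℓ := fun _ => (false, fun _ => false)
      have : (fun ω => g ω q) = fun _ => g ω0 q := by
        funext ω; simp [g, hc ω ω0]
      rw [this]; exact measurable_const
    · have : (fun ω => g ω q) = (fun z : Blk (ℓ x) => decide (z = (true, y))) ∘ (fun ω => ω x) := by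
        funext ω; simp [g, hxy]
      rw [this]
      exact (measurable_of_finite _).comp (measurable_pi_apply x)
  have : {ω | F (O ω) = h} =
      g ⁻¹' {φ | F {q | ∃ hq : q.length ≤ L, φ ⟨q, hq⟩ = true} = h} := by
    ext ω
    simp only [Set.mem_ofPred_eq, Set.mem_preimage]
    rw [hF (O ω) {q | ∃ hq : q.length ≤ L, g ω ⟨q, hq⟩ = true}]
    intro q hq
    simp [g, hq]
  rw [this]
  exact hg (Set.toFinite _).measurableSet

theorem sum_prob_le_one {γ : Type} {O : Om ℓ → Set Str} (hO : Dich O) (F : Set Str → γ) (L : ℕ)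
    (hF : ∀ A A' : Set Str, (∀ q : Str, q.length ≤ L → (q ∈ A ↔ q ∈ A')) → F A = F A')
    (S : Finset γ) : ∑ h ∈ S, (Pr ℓ).real {ω | F (O ω) = h} ≤ 1 := by
  have := sum_measureReal_le_measureReal_univ (μ := Pr ℓ) (s := S)
    (t := fun h => {ω | F (O ω) = h}) (fun h _ => measurableSet_local hO F L hF h)
    (fun h _ h' _ hne => by
      simp only [Function.onFun, Set.disjoint_left, Set.mem_ofPred_eq]
      intro ω h1 h2
      exact hne (h1.symm.trans h2))
  simpa using this

/-- Union bound: a point outside countably many small sets. -/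
theorem exists_avoid (Bad : ℕ → Set (Om ℓ)) (h : ∀ k, (Pr ℓ).real (Bad k) ≤ 1 / 4 * (1 / 2) ^ k) :
    ∃ ω, ∀ k, ω ∉ Bad k := by
  by_contra hcon
  push Not at hcon
  have hU : (⋃ k, Bad k) = Set.univ := by
    ext ω; simpa using hcon ω
  have h1 : (Pr ℓ) (⋃ k, Bad k) ≤ ∑' k, ENNReal.ofReal (1 / 4 * (1 / 2) ^ k) := by
    refine (measure_iUnion_le _).trans (ENNReal.tsum_le_tsum fun k => ?_)
    rw [← ofReal_measureReal]
    exact ENNReal.ofReal_le_ofReal (h k)
  have hs : HasSum (fun k : ℕ => (1 / 4 * (1 / 2) ^ k : ℝ)) (1 / 4 * 2) :=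
    hasSum_geometric_two.mul_left _
  rw [← ENNReal.ofReal_tsum_of_nonneg (fun k => by positivity) hs.summable, hs.tsum_eq, hU,
    measure_univ] at h1
  have : ENNReal.ofReal (1 / 4 * 2) < 1 := by
    rw [ENNReal.ofReal_lt_one]; norm_num
  exact absurd h1 (not_le.2 this)

end Pool.Agent.MP_e55146_lc

end

section

/-! Martingales that bet on a given string. -/

namespace Pool.Agent.MP_e55146_lc

/-- The martingale identity. -/
def IsMart (M : Str → ℝ) : Prop := ∀ w, M w = (M (w ++ [false]) + M (w ++ [true])) / 2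

theorem IsMart.le_pow {M : Str → ℝ} (h : IsMart M) (h0 : ∀ w, 0 ≤ M w) (h1 : M [] = 1) (w : Str) :
    M w ≤ 2 ^ w.length := by
  induction w using List.reverseRecOn with
  | nil => simp [h1]
  | append_singleton w b ih =>
    have := h w
    have h2 := h0 (w ++ [false])
    have h3 := h0 (w ++ [true])
    simp only [List.length_append, List.length_singleton, pow_succ]
    cases b <;> linarith

open Classical in
/-- The martingale that bets everything on `z`. -/
noncomputable def allIn (z w : Str) : ℝ :=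
  if w <+: z then 2 ^ w.length else if z <+: w then 2 ^ z.length else 0

theorem allIn_nonneg (z w : Str) : 0 ≤ allIn z w := by
  unfold allIn; split_ifs <;> positivity

theorem allIn_mart (z : Str) : IsMart (allIn z) := by
  intro w
  by_cases h1 : w <+: z
  · obtain ⟨t, rfl⟩ := h1
    cases t with
    | nil =>
      have e : ∀ b : Bool, ¬ (w ++ [b] <+: w) := fun b h => by simpa using h.length_le
      simp [allIn, e]
    | cons c t =>
      have e1 : w ++ [c] <+: w ++ c :: t := ⟨t, by simp⟩
      have e2 : ¬ (w ++ [!c] <+: w ++ c :: t) := by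
        rw [List.prefix_append_right_inj]; simp
      have e3 : ¬ (w ++ c :: t <+: w ++ [!c]) := by
        rw [List.prefix_append_right_inj]; simp
      have e0 : w <+: w ++ c :: t := List.prefix_append _ _
      cases c
      · simp only [Bool.not_false] at e2 e3
        simp only [allIn, if_pos e0, if_pos e1, if_neg e2, if_neg e3]
        simp [pow_succ]
      · simp only [Bool.not_true] at e2 e3
        simp only [allIn, if_pos e0, if_pos e1, if_neg e2, if_neg e3]
        simp [pow_succ]
  · have e : ∀ b : Bool, ¬ (w ++ [b] <+: z) := fun b h => h1 ((List.prefix_append _ _).trans h)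
    by_cases h2 : z <+: w
    · have e' : ∀ b : Bool, z <+: w ++ [b] := fun b => h2.trans (List.prefix_append _ _)
      simp [allIn, h1, h2, e, e']
    · have e' : ∀ b : Bool, ¬ z <+: w ++ [b] := by
        intro b h
        rcases List.prefix_concat_iff.1 h with h | h
        · exact h1 (h ▸ List.prefix_append _ _)
        · exact h2 h
      simp [allIn, h1, h2, e, e']

open Classical in
/-- The martingale that bets everything on `z` once `p` has been seen. -/
noncomputable def boost (p z w : Str) : ℝ := if p <+: w then allIn z w / 2 ^ p.length else 1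

theorem boost_nonneg (p z w : Str) : 0 ≤ boost p z w := by
  unfold boost
  split_ifs
  · exact div_nonneg (allIn_nonneg _ _) (by positivity)
  · exact zero_le_one

theorem boost_of_not {p z w : Str} (h : ¬ p <+: w) : boost p z w = 1 := by
  simp [boost, h]

theorem boost_self {p z : Str} (h : p <+: z) : boost p z p = 1 := by
  simp [boost, allIn, h]

theorem boost_short {p z w : Str} (h : p <+: z) (hw : w.length ≤ p.length) : boost p z w = 1 := by
  by_cases h1 : p <+: w
  · rw [← h1.eq_of_length_le hw]; exact boost_self h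
  · exact boost_of_not h1

theorem boost_win {p z w : Str} (h : p <+: z) (hw : z <+: w) :
    boost p z w = 2 ^ z.length / 2 ^ p.length := by
  simp only [boost, if_pos (h.trans hw), allIn, if_pos hw]
  split_ifs with h1
  · rw [h1.eq_of_length_le hw.length_le]
  · rfl

theorem boost_mart {p z : Str} (h : p <+: z) : IsMart (boost p z) := by
  intro w
  by_cases h1 : p <+: w
  · have e : ∀ b : Bool, p <+: w ++ [b] := fun b => h1.trans (List.prefix_append _ _)
    simp only [boost, if_pos h1, if_pos (e _)]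
    rw [allIn_mart z w]
    ring
  · have e : ∀ b : Bool, boost p z (w ++ [b]) = 1 := by
      intro b
      by_cases h2 : p <+: w ++ [b]
      · rcases List.prefix_concat_iff.1 h2 with h3 | h3
        · rw [← h3]; exact boost_self h
        · exact absurd h3 h1
      · exact boost_of_not h2
    rw [e, e, boost_of_not h1]
    norm_num

/-- All strings of a given length. -/
def words (L : ℕ) : Finset Str := (Finset.univ : Finset (Fin L → Bool)).image List.ofFn

theorem mem_words {L : ℕ} {w : Str} : w ∈ words L ↔ w.length = L := by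
  simp only [words, Finset.mem_image, Finset.mem_univ, true_and]
  constructor
  · rintro ⟨f, rfl⟩; simp
  · rintro rfl; exact ⟨w.get, List.ofFn_get w⟩

theorem card_words (L : ℕ) : (words L).card ≤ 2 ^ L :=
  Finset.card_image_le.trans (by simp)

/-- The martingale betting according to a distribution on strings of length `4 n`. -/
noncomputable def prior (μ : Str → ℝ) (n : ℕ) (w : Str) : ℝ :=
  1 + ∑ h ∈ words (4 * n), μ h * (boost (h.take n) h w - 1)

theorem prior_mart (μ : Str → ℝ) (n : ℕ) : IsMart (prior μ n) := by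
  intro w
  unfold prior
  have : ∑ h ∈ words (4 * n), μ h * (boost (h.take n) h w - 1) =
      (∑ h ∈ words (4 * n), μ h * (boost (h.take n) h (w ++ [false]) - 1) +
        ∑ h ∈ words (4 * n), μ h * (boost (h.take n) h (w ++ [true]) - 1)) / 2 := by
    rw [← Finset.sum_add_distrib, Finset.sum_div]
    apply Finset.sum_congr rfl
    intro h _
    rw [boost_mart (List.take_prefix n h) w]
    ring
  rw [this]; ring

theorem prior_short (μ : Str → ℝ) (n : ℕ) (w : Str) (hw : w.length ≤ n) : prior μ n w = 1 := by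
  unfold prior
  rw [Finset.sum_eq_zero, add_zero]
  intro h hh
  rw [boost_short (List.take_prefix n h) (by rw [List.length_take, mem_words.1 hh]; omega)]
  ring

theorem prior_eq (μ : Str → ℝ) (n : ℕ) (w : Str) : prior μ n w =
    (1 - ∑ h ∈ words (4 * n), μ h) + ∑ h ∈ words (4 * n), μ h * boost (h.take n) h w := by
  unfold prior
  simp only [mul_sub, mul_one, Finset.sum_sub_distrib]
  ring

theorem prior_nonneg {μ : Str → ℝ} {n : ℕ} (h0 : ∀ h, 0 ≤ μ h) (h1 : ∑ h ∈ words (4 * n), μ h ≤ 1)
    (w : Str) : 0 ≤ prior μ n w := by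
  rw [prior_eq]
  exact add_nonneg (by linarith)
    (Finset.sum_nonneg fun h _ => mul_nonneg (h0 h) (boost_nonneg _ _ _))

theorem prior_win {μ : Str → ℝ} {n : ℕ} (h0 : ∀ h, 0 ≤ μ h) (h1 : ∑ h ∈ words (4 * n), μ h ≤ 1)
    (h w : Str) (hh : h.length = 4 * n) (hw : h <+: w) (hμ : 1 / 2 ^ (2 * n) ≤ μ h) :
    2 ^ n ≤ prior μ n w := by
  rw [prior_eq]
  have h2 : μ h * boost (h.take n) h w ≤ ∑ h ∈ words (4 * n), μ h * boost (h.take n) h w :=
    Finset.single_le_sum (f := fun h => μ h * boost (h.take n) h w)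
      (fun h _ => mul_nonneg (h0 h) (boost_nonneg _ _ _)) (mem_words.2 hh)
  rw [boost_win (List.take_prefix n h) hw, List.length_take, hh,
    Nat.min_eq_left (by omega : n ≤ 4 * n)] at h2
  have h3 : (2 : ℝ) ^ n = 1 / 2 ^ (2 * n) * (2 ^ (4 * n) / 2 ^ n) := by
    rw [show 4 * n = 2 * n + n + n by ring, pow_add, pow_add]
    field_simp
  have h4 : 1 / 2 ^ (2 * n) * ((2 : ℝ) ^ (4 * n) / 2 ^ n) ≤ μ h * (2 ^ (4 * n) / 2 ^ n) := by
    gcongr
  linarith

/-- The martingale betting on the advice string. -/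
noncomputable def leak (n : ℕ) (u : Option Str) (w : Str) : ℝ :=
  match u with
  | none => 1
  | some z => boost (z.take (4 * n)) z w

theorem leak_nonneg (n : ℕ) (u : Option Str) (w : Str) : 0 ≤ leak n u w := by
  cases u with
  | none => exact zero_le_one
  | some z => exact boost_nonneg _ _ _

theorem leak_mart (n : ℕ) (u : Option Str) : IsMart (leak n u) := by
  cases u with
  | none => intro w; simp [leak]
  | some z => exact boost_mart (List.take_prefix _ z)

theorem leak_short (n : ℕ) (u : Option Str) (hu : ∀ z, u = some z → z.length = 5 * n) (w : Str)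
    (hw : w.length ≤ n) : leak n u w = 1 := by
  cases u with
  | none => rfl
  | some z =>
    exact boost_short (List.take_prefix _ z) (by rw [List.length_take, hu z rfl]; omega)

theorem leak_win (n : ℕ) (z : Str) (hz : z.length = 5 * n) : leak n (some z) z = 2 ^ n := by
  simp only [leak]
  rw [boost_win (List.take_prefix _ z) (List.prefix_refl z), List.length_take, hz,
    Nat.min_eq_left (by omega : 4 * n ≤ 5 * n), show 5 * n = 4 * n + n by ring, pow_add]
  field_simp

/-- One stage of the construction of the martingale. -/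
noncomputable def nextM (k n : ℕ) (μ : Str → ℝ) (M : Str → ℝ) (u : Option Str) (w : Str) : ℝ :=
  M w + (1 / 2) ^ (k + 2) * (prior μ n w - 1 + (leak n u w - 1))

theorem nextM_mart (k n : ℕ) (μ : Str → ℝ) {M : Str → ℝ} (hM : IsMart M) (u : Option Str) :
    IsMart (nextM k n μ M u) := by
  intro w
  unfold nextM
  rw [hM w, prior_mart μ n w, leak_mart n u w]
  ring

theorem nextM_short (k n : ℕ) (μ : Str → ℝ) (M : Str → ℝ) (u : Option Str)
    (hu : ∀ z, u = some z → z.length = 5 * n) (w : Str) (hw : w.length ≤ n) :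
    nextM k n μ M u w = M w := by
  unfold nextM
  rw [prior_short μ n w hw, leak_short n u hu w hw]
  ring

theorem nextM_eq (k n : ℕ) (μ : Str → ℝ) (M : Str → ℝ) (u : Option Str) (w : Str) :
    nextM k n μ M u w - (1 / 2) ^ (k + 1) =
      M w - (1 / 2) ^ k + (1 / 2) ^ (k + 2) * (prior μ n w + leak n u w) := by
  unfold nextM
  ring

end Pool.Agent.MP_e55146_lc

end
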