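import Pool.Agent.Mg.Fe55146.Ga01b7a

section

/-! Basic facts on oracle machines: halting, locality, decision trees, countability. -/

namespace Pool.Agent.MP_e55146_lc

@[simp] theorem tapeOf_nat (s : Str) (i : ℕ) : tapeOf s (i : ℤ) = s[i]? := rfl

theorem tapeOf_update (s : Str) (b : Bool) :
    Function.update (tapeOf s) (s.length : ℤ) (some b) = tapeOf (s ++ [b]) := by
  funext i
  by_cases h : i = (s.length : ℤ)
  · subst h; simp
  · rw [Function.update_of_ne h]
    cases i with
    | ofNat i =>
      have hi : i ≠ s.length := fun e => h (by simp [e])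
      show s[i]? = (s ++ [b])[i]?
      rcases lt_or_gt_of_ne hi with h1 | h1
      · rw [List.getElem?_append_left h1]
      · rw [List.getElem?_eq_none (by omega), List.getElem?_eq_none (by simp; omega)]
    | negSucc i => rfl

theorem Holds.unique {t : ℤ → Option Bool} {s s' : Str} (h : Holds t s) (h' : Holds t s') :
    s = s' := by
  have key : ∀ {a b : Str}, Holds t a → Holds t b → a.length ≤ b.length := by
    intro a b ha hb
    by_contra hlt
    have h1 := ha b.length (by omega)
    have h2 := hb b.length le_rfl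
    rw [h2] at h1
    rw [List.getElem?_eq_none le_rfl, List.getElem?_eq_getElem (by omega)] at h1
    simp at h1
  have hl : s.length = s'.length := le_antisymm (key h h') (key h' h)
  apply List.ext_getElem?
  intro i
  by_cases hi : i ≤ s.length
  · rw [← h i hi, ← h' i (hl ▸ hi)]
  · rw [List.getElem?_eq_none (by omega), List.getElem?_eq_none (by omega)]

theorem holds_tapeOf (s : Str) : Holds (tapeOf s) s := fun _ _ => rfl

theorem exists_holds_tapeOf (A : Set Str) (s : Str) :
    (∃ s' ∈ A, Holds (tapeOf s) s') ↔ s ∈ A := by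
  constructor
  · rintro ⟨s', h1, h2⟩
    rwa [(holds_tapeOf s).unique h2]
  · intro h; exact ⟨s, h, holds_tapeOf s⟩

namespace OracleTM

variable (M : OracleTM)

theorem step_halted (A : Set Str) (b : Bool) (c : Config M) (h : c.Halted) : M.step A b c = c := by
  unfold step
  rcases h with h | h <;> simp [h]

open Classical in
theorem step_query (A : Set Str) (b : Bool) (c : Config M) (h : c.state = State.query) :
    M.step A b c = { c with
      state := if ∃ s ∈ A, Holds (c.tape TapeName.oracle) s then State.yes else State.no } := by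
  unfold step
  simp [h]

theorem step_move (A : Set Str) (b : Bool) (c : Config M) (h1 : c.state ≠ State.accept)
    (h2 : c.state ≠ State.reject) (h3 : c.state ≠ State.query) : M.step A b c = M.move b c := by
  unfold step
  split <;> simp_all

theorem run_of_halted (A : Set Str) (x : Str) (ch : ℕ → Bool) {t t' : ℕ} (h : t ≤ t')
    (hh : (M.run A x ch t).Halted) : M.run A x ch t' = M.run A x ch t := by
  induction t', h using Nat.le_induction with
  | base => rfl
  | succ n _ ih => rw [run, ih, step_halted _ _ _ _ hh]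

/-- The oracle tape is blank from cell `t` on and its head is at most at cell `t`. -/
def Inv (c : Config M) (t : ℕ) : Prop :=
  c.head TapeName.oracle ≤ t ∧ ∀ i : ℤ, (t : ℤ) ≤ i → c.tape TapeName.oracle i = none

theorem inv_init (x : Str) : M.Inv (M.init x) 0 := by
  refine ⟨le_rfl, fun i _ => ?_⟩
  cases i <;> simp [init, tapeOf]

theorem inv_step (A : Set Str) (b : Bool) (c : Config M) (t : ℕ) (h : M.Inv c t) :
    M.Inv (M.step A b c) (t + 1) := by
  have hweak : ∀ c' : Config M, c'.head = c.head → c'.tape = c.tape → M.Inv c' (t + 1) := by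
    intro c' h1 h2
    refine ⟨?_, fun i hi => ?_⟩
    · rw [h1]; have := h.1; push_cast; omega
    · rw [h2]; exact h.2 i (by push_cast at hi; omega)
  by_cases h1 : c.state = State.accept
  · rw [step_halted _ _ _ _ (Or.inl h1)]; exact hweak c rfl rfl
  by_cases h2 : c.state = State.reject
  · rw [step_halted _ _ _ _ (Or.inr h2)]; exact hweak c rfl rfl
  by_cases h3 : c.state = State.query
  · rw [step_query _ _ _ _ h3]; exact hweak _ rfl rfl
  rw [step_move _ _ _ _ h1 h2 h3]
  refine ⟨?_, fun i hi => ?_⟩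
  · have := h.1
    have h4 : ∀ s : SignType, (s : ℤ) ≤ 1 := by intro s; cases s <;> simp
    simp only [move]
    have := h4 ((M.δ b c.state (fun t => c.tape t (c.head t))).2 TapeName.oracle).2
    push_cast; omega
  · have := h.1
    simp only [move]
    rw [Function.update_of_ne (by push_cast at hi; omega)]
    exact h.2 i (by push_cast at hi; omega)

theorem inv_run (A : Set Str) (x : Str) (ch : ℕ → Bool) (t : ℕ) : M.Inv (M.run A x ch t) t := by
  induction t with
  | zero => exact M.inv_init x
  | succ t ih => exact M.inv_step A _ _ t ih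

theorem Inv.length_le {M : OracleTM} {c : Config M} {t : ℕ} (h : M.Inv c t) {s : Str}
    (hs : Holds (c.tape TapeName.oracle) s) : s.length ≤ t := by
  by_contra hlt
  have h1 := hs t (by omega)
  rw [h.2 t le_rfl, List.getElem?_eq_getElem (by omega)] at h1
  simp at h1

theorem step_congr (A A' : Set Str) (b : Bool) (c : Config M)
    (h : ∀ s, Holds (c.tape TapeName.oracle) s → (s ∈ A ↔ s ∈ A')) :
    M.step A b c = M.step A' b c := by
  have : (∃ s ∈ A, Holds (c.tape TapeName.oracle) s) ↔
      (∃ s ∈ A', Holds (c.tape TapeName.oracle) s) := by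
    constructor
    · rintro ⟨s, h1, h2⟩; exact ⟨s, (h s h2).1 h1, h2⟩
    · rintro ⟨s, h1, h2⟩; exact ⟨s, (h s h2).2 h1, h2⟩
  by_cases h1 : c.state = State.accept
  · rw [step_halted _ _ _ _ (Or.inl h1), step_halted _ _ _ _ (Or.inl h1)]
  by_cases h2 : c.state = State.reject
  · rw [step_halted _ _ _ _ (Or.inr h2), step_halted _ _ _ _ (Or.inr h2)]
  by_cases h3 : c.state = State.query
  · rw [step_query _ _ _ _ h3, step_query _ _ _ _ h3, propext this]
  rw [step_move _ _ _ _ h1 h2 h3, step_move _ _ _ _ h1 h2 h3]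

theorem run_local (A A' : Set Str) (x : Str) (ch : ℕ → Bool) (T : ℕ)
    (h : ∀ q : Str, q.length ≤ T → (q ∈ A ↔ q ∈ A')) :
    M.run A x ch T = M.run A' x ch T := by
  induction T with
  | zero => rfl
  | succ t ih =>
    rw [run, run, ← ih (fun q hq => h q (by omega))]
    apply step_congr
    intro s hs
    exact h s (((M.inv_run A x ch t).length_le hs).trans (Nat.le_succ t))

open Classical in
/-- The string on the oracle tape (empty if there is none). -/
noncomputable def content (c : Config M) : Str :=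
  if h : ∃ s, Holds (c.tape TapeName.oracle) s then h.choose else []

theorem content_eq (c : Config M) {s : Str} (hs : Holds (c.tape TapeName.oracle) s) :
    M.content c = s := by
  unfold content
  rw [dif_pos ⟨s, hs⟩]
  exact (Exists.choose_spec (⟨s, hs⟩ : ∃ s, Holds (c.tape TapeName.oracle) s)).unique hs

theorem length_content (c : Config M) (t : ℕ) (h : M.Inv c t) : (M.content c).length ≤ t := by
  by_cases hs : ∃ s, Holds (c.tape TapeName.oracle) s
  · obtain ⟨s, hs⟩ := hs
    rw [M.content_eq c hs]; exact h.length_le hs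
  · simp [content, hs]

/-- The decision tree of `T` steps of the machine along the choices `false`, followed by `k`. -/
noncomputable def runTree {β : Type} (k : Config M → DT β) : ℕ → Config M → DT β
  | 0, c => k c
  | T + 1, c => DT.node (M.content c)
      (fun b => runTree k T (M.step {_s | b = true} false c))

theorem eval_runTree {β : Type} (k : Config M → DT β) (A : Set Str) (T : ℕ) :
    ∀ c, (M.runTree k T c).eval A = (k ((M.step A false)^[T] c)).eval A := by
  classical
  induction T with
  | zero => intro c; rfl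
  | succ T ih =>
    intro c
    rw [runTree, DT.eval, ih, Function.iterate_succ_apply]
    congr 3
    apply step_congr
    intro s hs
    rw [M.content_eq c hs]
    simp

theorem ok_runTree {β : Type} (k : Config M → DT β) (L T' : ℕ) (hk : ∀ c, DT.Ok L T' (k c))
    (T : ℕ) : ∀ c t, M.Inv c t → t + T ≤ L → DT.Ok L (T' + T) (M.runTree k T c) := by
  induction T with
  | zero => intro c t _ _; exact hk c
  | succ T ih =>
    intro c t h hL
    rw [runTree]
    exact DT.Ok.node _ _ _ ((M.length_content c t h).trans (by omega))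
      (fun b => ih _ (t + 1) (M.inv_step _ _ c t h) (by omega))

theorem run_false (A : Set Str) (x : Str) (T : ℕ) :
    M.run A x (fun _ => false) T = (M.step A false)^[T] (M.init x) := by
  induction T with
  | zero => rfl
  | succ T ih => rw [run, ih, Function.iterate_succ_apply']

end OracleTM

instance (n : ℕ) : Finite (State n) := by
  let f : Fin 6 ⊕ Fin n → State n := fun a => match a with
    | Sum.inl 0 => State.start
    | Sum.inl 1 => State.query
    | Sum.inl 2 => State.yes
    | Sum.inl 3 => State.no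
    | Sum.inl 4 => State.accept
    | Sum.inl 5 => State.reject
    | Sum.inr i => State.work i
  apply Finite.of_surjective f
  intro q
  cases q with
  | start => exact ⟨Sum.inl 0, rfl⟩
  | query => exact ⟨Sum.inl 1, rfl⟩
  | yes => exact ⟨Sum.inl 2, rfl⟩
  | no => exact ⟨Sum.inl 3, rfl⟩
  | accept => exact ⟨Sum.inl 4, rfl⟩
  | reject => exact ⟨Sum.inl 5, rfl⟩
  | work i => exact ⟨Sum.inr i, rfl⟩

instance (k : ℕ) : Finite (TapeName k) := by
  let f : Fin 3 ⊕ Fin k → TapeName k := fun a => match a with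
    | Sum.inl 0 => TapeName.input
    | Sum.inl 1 => TapeName.oracle
    | Sum.inl 2 => TapeName.output
    | Sum.inr i => TapeName.work i
  apply Finite.of_surjective f
  intro q
  cases q with
  | input => exact ⟨Sum.inl 0, rfl⟩
  | oracle => exact ⟨Sum.inl 1, rfl⟩
  | output => exact ⟨Sum.inl 2, rfl⟩
  | work i => exact ⟨Sum.inr i, rfl⟩

instance : Countable OracleTM := by
  let f : (Σ n : ℕ, Σ k : ℕ, (Bool → State n → (TapeName k → Option Bool) →
    State n × (TapeName k → Option Bool × SignType))) → OracleTM := fun a => ⟨a.1, a.2.1, a.2.2⟩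
  have : Function.Surjective f := fun M => ⟨⟨M.numStates, M.numTapes, M.δ⟩, rfl⟩
  have hf : ∀ n k : ℕ, Countable (Bool → State n → (TapeName k → Option Bool) →
      State n × (TapeName k → Option Bool × SignType)) := by
    intro n k
    have h1 : Finite (TapeName k → Option Bool) := inferInstance
    have h2 : Finite (State n × (TapeName k → Option Bool × SignType)) := inferInstance
    have h3 : Finite ((TapeName k → Option Bool) →
      State n × (TapeName k → Option Bool × SignType)) := inferInstance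
    infer_instance
  exact this.countable

instance : Nonempty OracleTM := ⟨⟨0, 0, fun _ _ _ => (State.accept, fun _ => (none, 0))⟩⟩

theorem poly_le_pow (p : Polynomial ℕ) : ∃ c : ℕ, ∀ n, p.eval n ≤ (n + 2) ^ c := by
  induction p using Polynomial.induction_on' with
  | add p q hp hq =>
    obtain ⟨a, ha⟩ := hp
    obtain ⟨b, hb⟩ := hq
    refine ⟨a + b + 1, fun n => ?_⟩
    rw [Polynomial.eval_add]
    have h1 : (n + 2) ^ a ≤ (n + 2) ^ (a + b) := Nat.pow_le_pow_right (by omega) (by omega)
    have h2 : (n + 2) ^ b ≤ (n + 2) ^ (a + b) := Nat.pow_le_pow_right (by omega) (by omega)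
    have h3 := ha n
    have h4 := hb n
    rw [pow_succ]
    nlinarith
  | monomial k a =>
    refine ⟨a + k, fun n => ?_⟩
    rw [Polynomial.eval_monomial, pow_add]
    apply Nat.mul_le_mul
    · exact (Nat.lt_two_pow_self.le).trans (Nat.pow_le_pow_left (by omega) _)
    · exact Nat.pow_le_pow_left (by omega) _

end Pool.Agent.MP_e55146_lc

end

section

/-! Two explicit oracle machines. -/

namespace Pool.Agent.MP_e55146_lc

/-- Transition tables with two extra states and one work tape. -/
abbrev Tr : Type := Bool → State 2 → (TapeName 1 → Option Bool) →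
  State 2 × (TapeName 1 → Option Bool × SignType)

/-- The machine with a given transition table. -/
abbrev mach (δ : Tr) : OracleTM := ⟨2, 1, δ⟩

/-- A tape with one marked cell. -/
def cell (ph : Option Bool) : ℤ → Option Bool := fun j => if j = 0 then ph else none

/-- Configurations of append-only machines. -/
def cfg (δ : Tr) (st : State 2) (x : Str) (ih : ℕ) (q o : Str) (ph : Option Bool) :
    Config (mach δ) where
  state := st
  tape := fun t => match t with
    | TapeName.input => tapeOf x
    | TapeName.oracle => tapeOf q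
    | TapeName.output => tapeOf o
    | TapeName.work _ => cell ph
  head := fun t => match t with
    | TapeName.input => (ih : ℤ)
    | TapeName.oracle => (q.length : ℤ)
    | TapeName.output => (o.length : ℤ)
    | TapeName.work _ => 0

/-- Append a symbol, or do nothing. -/
def app (w : Option Bool) (a : Option Bool) : Option Bool × SignType :=
  match w with
  | some b => (some b, 1)
  | none => (a, 0)

/-- An action of an append-only machine. -/
def act (a : TapeName 1 → Option Bool) (st : State 2) (mi : Bool) (wq wo ph : Option Bool) :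
    State 2 × (TapeName 1 → Option Bool × SignType) :=
  (st, fun t => match t with
    | TapeName.input => (a TapeName.input, if mi then 1 else 0)
    | TapeName.oracle => app wq (a TapeName.oracle)
    | TapeName.output => app wo (a TapeName.output)
    | TapeName.work _ => (ph, 0))

/-- The scanned symbols. -/
def scan (x : Str) (ih : ℕ) (ph : Option Bool) : TapeName 1 → Option Bool := fun t =>
  match t with
  | TapeName.input => x[ih]?
  | TapeName.oracle => none
  | TapeName.output => none
  | TapeName.work _ => ph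

theorem scan_cfg (δ : Tr) (st : State 2) (x : Str) (ih : ℕ) (q o : Str) (ph : Option Bool) :
    (fun t => (cfg δ st x ih q o ph).tape t ((cfg δ st x ih q o ph).head t)) = scan x ih ph := by
  funext t
  cases t <;> simp [cfg, scan, cell]

theorem update_app (s : Str) (w : Option Bool) :
    Function.update (tapeOf s) (s.length : ℤ) (app w none).1 = tapeOf (s ++ w.toList) := by
  cases w with
  | none =>
    simp only [app, Option.toList_none, List.append_nil]
    apply Function.update_eq_self_iff.2
    simp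
  | some b => simpa [app] using tapeOf_update s b

theorem head_app (s : Str) (w : Option Bool) :
    (s.length : ℤ) + ((app w none).2 : ℤ) = ((s ++ w.toList).length : ℤ) := by
  cases w <;> simp [app]

theorem move_cfg (δ : Tr) (b : Bool) (st : State 2) (x : Str) (ih : ℕ) (q o : Str)
    (ph : Option Bool) (st' : State 2) (mi : Bool) (wq wo ph' : Option Bool)
    (h : δ b st (scan x ih ph) = act (scan x ih ph) st' mi wq wo ph') :
    (mach δ).move b (cfg δ st x ih q o ph) =
      cfg δ st' x (ih + if mi then 1 else 0) (q ++ wq.toList) (o ++ wo.toList) ph' := by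
  unfold OracleTM.move
  simp only [scan_cfg]
  have hst : (cfg δ st x ih q o ph).state = st := rfl
  simp only [hst, h]
  unfold cfg
  congr 1
  · funext t
    cases t with
    | input =>
      simp only [act, scan]
      apply Function.update_eq_self_iff.2
      simp
    | oracle => simpa only [act, scan] using update_app q wq
    | output => simpa only [act, scan] using update_app o wo
    | work i =>
      simp only [act]
      funext j
      by_cases hj : j = 0
      · subst hj; simp [cell]
      · simp [cell, hj]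
  · funext t
    cases t with
    | input => cases mi <;> simp [act]
    | oracle => simpa only [act, scan] using head_app q wq
    | output => simpa only [act, scan] using head_app o wo
    | work i => simp [act]

theorem step_cfg (δ : Tr) (A : Set Str) (b : Bool) (st : State 2) (x : Str) (ih : ℕ) (q o : Str)
    (ph : Option Bool) (st' : State 2) (mi : Bool) (wq wo ph' : Option Bool)
    (h1 : st ≠ State.accept) (h2 : st ≠ State.reject) (h3 : st ≠ State.query)
    (h : δ b st (scan x ih ph) = act (scan x ih ph) st' mi wq wo ph') :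
    (mach δ).step A b (cfg δ st x ih q o ph) =
      cfg δ st' x (ih + if mi then 1 else 0) (q ++ wq.toList) (o ++ wo.toList) ph' := by
  rw [OracleTM.step_move _ _ _ _ h1 h2 h3, move_cfg _ _ _ _ _ _ _ _ _ _ _ _ _ h]

theorem step_yes (δ : Tr) (A : Set Str) (b : Bool) (x : Str) (ih : ℕ) (q o : Str)
    (ph : Option Bool) (h : q ∈ A) :
    (mach δ).step A b (cfg δ State.query x ih q o ph) = cfg δ State.yes x ih q o ph := by
  rw [OracleTM.step_query _ _ _ _ rfl]
  have : ∃ s ∈ A, Holds ((cfg δ State.query x ih q o ph).tape TapeName.oracle) s :=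
    (exists_holds_tapeOf A q).2 h
  rw [if_pos this]
  rfl

theorem step_no (δ : Tr) (A : Set Str) (b : Bool) (x : Str) (ih : ℕ) (q o : Str)
    (ph : Option Bool) (h : q ∉ A) :
    (mach δ).step A b (cfg δ State.query x ih q o ph) = cfg δ State.no x ih q o ph := by
  rw [OracleTM.step_query _ _ _ _ rfl]
  have : ¬ ∃ s ∈ A, Holds ((cfg δ State.query x ih q o ph).tape TapeName.oracle) s :=
    fun h' => h ((exists_holds_tapeOf A q).1 h')
  rw [if_neg this]
  rfl

theorem init_cfg (δ : Tr) (x : Str) : (mach δ).init x = cfg δ State.start x 0 [] [] none := by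
  unfold OracleTM.init cfg
  congr 1
  · funext t
    cases t with
    | input => rfl
    | oracle => rfl
    | output => rfl
    | work i =>
      funext j
      cases j <;> simp [tapeOf, cell]
  · funext t
    cases t <;> simp

/-- Table positions. -/
def posR (inp : Str) (t : ℕ) : Str := false :: inp ++ false :: List.replicate t true

/-- Witness positions. -/
def posQ (x z : Str) : Str := true :: pairCode x z

/-- The deterministic machine that reads its output from the oracle. -/
def δD : Tr := fun _ st a =>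
  match st with
  | State.start => act a (State.work 0) false (some false) none none
  | State.work _ => match a TapeName.input with
    | some b => act a (State.work 0) true (some b) none none
    | none => act a State.query false (some false) none none
  | State.yes => match a (TapeName.work 0) with
    | none => act a State.query false (some true) none (some true)
    | some _ => act a State.query false (some true) (some true) none
  | State.no => match a (TapeName.work 0) with
    | none => act a State.accept false none none none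
    | some _ => act a State.query false (some true) (some false) none
  | _ => act a State.accept false none none none

theorem posR_succ (inp : Str) (t : ℕ) : posR inp t ++ [true] = posR inp (t + 1) := by
  simp [posR, List.replicate_succ']

theorem runD_copy (A : Set Str) (x : Str) (ch : ℕ → Bool) (j : ℕ) (hj : j ≤ x.length) :
    (mach δD).run A x ch (j + 1) = cfg δD (State.work 0) x j (false :: x.take j) [] none := by
  induction j with
  | zero =>
    rw [OracleTM.run, OracleTM.run, init_cfg,
      step_cfg δD A _ _ _ _ _ _ _ (State.work 0) false (some false) none none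
        (by simp) (by simp) (by simp) rfl]
    simp
  | succ j ih =>
    have hj' : j < x.length := hj
    rw [OracleTM.run, ih hj'.le,
      step_cfg δD A _ _ _ _ _ _ _ (State.work 0) true (some x[j]) none none
        (by simp) (by simp) (by simp) (by simp [δD, scan, List.getElem?_eq_getElem hj'])]
    simp

theorem runD_loop (A : Set Str) (x o : Str) (ch : ℕ → Bool)
    (h0 : ∀ i ≤ o.length, (posR x (2 * i) ∈ A ↔ i < o.length))
    (h1 : ∀ i (hi : i < o.length), (posR x (2 * i + 1) ∈ A ↔ o[i] = true))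
    (i : ℕ) (hi : i ≤ o.length) :
    (mach δD).run A x ch (x.length + 2 + 4 * i) =
      cfg δD State.query x x.length (posR x (2 * i)) (o.take i) none := by
  induction i with
  | zero =>
    rw [show x.length + 2 + 4 * 0 = x.length + 1 + 1 by ring, OracleTM.run,
      runD_copy A x ch _ le_rfl,
      step_cfg δD A _ _ _ _ _ _ _ State.query false (some false) none none
        (by simp) (by simp) (by simp) (by simp [δD, scan])]
    simp [posR]
  | succ i ih =>
    have hi' : i < o.length := hi
    rw [show x.length + 2 + 4 * (i + 1) = x.length + 2 + 4 * i + 1 + 1 + 1 + 1 by ring,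
      OracleTM.run, OracleTM.run, OracleTM.run, OracleTM.run, ih hi'.le,
      step_yes _ _ _ _ _ _ _ _ ((h0 i hi'.le).2 hi'),
      step_cfg δD A _ _ _ _ _ _ _ State.query false (some true) none (some true)
        (by simp) (by simp) (by simp) (by simp [δD, scan])]
    simp only [Option.toList_some, posR_succ, Option.toList_none, List.append_nil]
    cases hb : o[i] with
    | true =>
      rw [step_yes _ _ _ _ _ _ _ _ ((h1 i hi').2 hb),
        step_cfg δD A _ _ _ _ _ _ _ State.query false (some true) (some true) none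
          (by simp) (by simp) (by simp) (by simp [δD, scan])]
      simp only [Option.toList_some, posR_succ]
      rw [← List.take_append_getElem hi', hb]
      simp [mul_add]
    | false =>
      rw [step_no _ _ _ _ _ _ _ _ (fun h => by simp [(h1 i hi').1 h] at hb),
        step_cfg δD A _ _ _ _ _ _ _ State.query false (some true) (some false) none
          (by simp) (by simp) (by simp) (by simp [δD, scan])]
      simp only [Option.toList_some, posR_succ]
      rw [← List.take_append_getElem hi', hb]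
      simp [mul_add]

theorem runD_final (A : Set Str) (x o : Str) (ch : ℕ → Bool)
    (h0 : ∀ i ≤ o.length, (posR x (2 * i) ∈ A ↔ i < o.length))
    (h1 : ∀ i (hi : i < o.length), (posR x (2 * i + 1) ∈ A ↔ o[i] = true))
    (T : ℕ) (hT : x.length + 4 + 4 * o.length ≤ T) :
    ((mach δD).run A x ch T).Halted ∧ Holds (((mach δD).run A x ch T).tape TapeName.output) o := by
  have key : (mach δD).run A x ch (x.length + 4 + 4 * o.length) =
      cfg δD State.accept x x.length (posR x (2 * o.length)) o none := by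
    rw [show x.length + 4 + 4 * o.length = x.length + 2 + 4 * o.length + 1 + 1 by ring,
      OracleTM.run, OracleTM.run, runD_loop A x o ch h0 h1 _ le_rfl,
      step_no _ _ _ _ _ _ _ _ (fun h => by simpa using (h0 _ le_rfl).1 h),
      step_cfg δD A _ _ _ _ _ _ _ State.accept false none none none
        (by simp) (by simp) (by simp) (by simp [δD, scan])]
    simp
  have hh : ((mach δD).run A x ch (x.length + 4 + 4 * o.length)).Halted := by
    rw [key]; exact Or.inl rfl
  rw [OracleTM.run_of_halted _ A x ch hT hh, key]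
  exact ⟨Or.inl rfl, holds_tapeOf o⟩

/-- The nondeterministic machine that guesses a witness. -/
def δN : Tr := fun b st a =>
  match st with
  | State.start => act a (State.work 0) false (some true) none none
  | State.work i =>
    if i = 0 then
      match a TapeName.input with
      | some _ => act a (State.work 1) false (some true) none none
      | none => act a State.query false (some false) none none
    else act a (State.work 0) true (a TapeName.input) none none
  | State.yes => match a (TapeName.work 0) with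
    | none => act a State.query false (some b) none none
    | some _ => act a State.accept false none none none
  | State.no => match a (TapeName.work 0) with
    | none => act a State.query false (some false) none (some true)
    | some _ => act a State.reject false none none none
  | _ => act a State.accept false none none none

theorem posQ_append (x z : Str) (b : Bool) : posQ x z ++ [b] = posQ x (z ++ [b]) := by
  simp [posQ, pairCode]

theorem runN_copy (A : Set Str) (x : Str) (ch : ℕ → Bool) (j : ℕ) (hj : j ≤ x.length) :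
    (mach δN).run A x ch (2 * j + 1) =
      cfg δN (State.work 0) x j (true :: (x.take j).flatMap (fun c => [true, c])) [] none := by
  induction j with
  | zero =>
    rw [OracleTM.run, OracleTM.run, init_cfg,
      step_cfg δN A _ _ _ _ _ _ _ (State.work 0) false (some true) none none
        (by simp) (by simp) (by simp) rfl]
    simp
  | succ j ih =>
    have hj' : j < x.length := hj
    rw [show 2 * (j + 1) + 1 = 2 * j + 1 + 1 + 1 by ring, OracleTM.run, OracleTM.run, ih hj'.le,
      step_cfg δN A _ _ _ _ _ _ _ (State.work 1) false (some true) none none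
        (by simp) (by simp) (by simp) (by simp [δN, scan, List.getElem?_eq_getElem hj']),
      step_cfg δN A _ _ _ _ _ _ _ (State.work 0) true (some x[j]) none none
        (by simp) (by simp) (by simp) (by simp [δN, scan, List.getElem?_eq_getElem hj'])]
    rw [← List.take_append_getElem hj', List.flatMap_append]
    simp

theorem runN_loop (A : Set Str) (x : Str) (l : ℕ) (ch : ℕ → Bool)
    (h0 : ∀ z : Str, z.length < l → posQ x z ∈ A) (i : ℕ) (hi : i ≤ l) :
    (mach δN).run A x ch (2 * x.length + 2 + 2 * i) =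
      cfg δN State.query x x.length
        (posQ x (firstBits (fun j => ch (2 * x.length + 2 + 2 * j + 1)) i)) [] none := by
  induction i with
  | zero =>
    rw [show 2 * x.length + 2 + 2 * 0 = 2 * x.length + 1 + 1 by ring, OracleTM.run,
      runN_copy A x ch _ le_rfl,
      step_cfg δN A _ _ _ _ _ _ _ State.query false (some false) none none
        (by simp) (by simp) (by simp) (by simp [δN, scan])]
    simp [posQ, pairCode]
  | succ i ih =>
    have hi' : i < l := hi
    rw [show 2 * x.length + 2 + 2 * (i + 1) = 2 * x.length + 2 + 2 * i + 1 + 1 by ring,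
      OracleTM.run, OracleTM.run, ih hi'.le,
      step_yes _ _ _ _ _ _ _ _ (h0 _ (by simpa using hi')),
      step_cfg δN A _ _ _ _ _ _ _ State.query false (some (ch (2 * x.length + 2 + 2 * i + 1)))
        none none (by simp) (by simp) (by simp) (by simp [δN, scan])]
    simp [posQ_append, firstBits_succ]

theorem runN_final (A : Set Str) (x : Str) (l : ℕ) (ch : ℕ → Bool)
    (h0 : ∀ z : Str, z.length < l → posQ x z ∈ A) (h1 : ∀ z : Str, z.length = l → posQ x z ∉ A)
    (T : ℕ) (hT : 2 * x.length + 6 + 2 * l ≤ T) :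
    ((mach δN).run A x ch T).Halted ∧ (((mach δN).run A x ch T).state = State.accept ↔
      posQ x (firstBits (fun j => ch (2 * x.length + 2 + 2 * j + 1)) l ++ [false]) ∈ A) := by
  set z := firstBits (fun j => ch (2 * x.length + 2 + 2 * j + 1)) l with hz
  have key : (mach δN).run A x ch (2 * x.length + 2 + 2 * l + 1 + 1) =
      cfg δN State.query x x.length (posQ x (z ++ [false])) [] (some true) := by
    rw [OracleTM.run, OracleTM.run, runN_loop A x l ch h0 _ le_rfl,
      step_no _ _ _ _ _ _ _ _ (h1 _ (by simp)),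
      step_cfg δN A _ _ _ _ _ _ _ State.query false (some false) none (some true)
        (by simp) (by simp) (by simp) (by simp [δN, scan])]
    simp [posQ_append, hz]
  by_cases hA : posQ x (z ++ [false]) ∈ A
  · have key2 : (mach δN).run A x ch (2 * x.length + 6 + 2 * l) =
        cfg δN State.accept x x.length (posQ x (z ++ [false])) [] none := by
      rw [show 2 * x.length + 6 + 2 * l = 2 * x.length + 2 + 2 * l + 1 + 1 + 1 + 1 by ring,
        OracleTM.run, OracleTM.run, key, step_yes _ _ _ _ _ _ _ _ hA,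
        step_cfg δN A _ _ _ _ _ _ _ State.accept false none none none
          (by simp) (by simp) (by simp) (by simp [δN, scan])]
      simp
    have hh : ((mach δN).run A x ch (2 * x.length + 6 + 2 * l)).Halted := by
      rw [key2]; exact Or.inl rfl
    rw [OracleTM.run_of_halted _ A x ch hT hh, key2]
    exact ⟨Or.inl rfl, by simp [hA, cfg]⟩
  · have key2 : (mach δN).run A x ch (2 * x.length + 6 + 2 * l) =
        cfg δN State.reject x x.length (posQ x (z ++ [false])) [] none := by
      rw [show 2 * x.length + 6 + 2 * l = 2 * x.length + 2 + 2 * l + 1 + 1 + 1 + 1 by ring,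
        OracleTM.run, OracleTM.run, key, step_no _ _ _ _ _ _ _ _ hA,
        step_cfg δN A _ _ _ _ _ _ _ State.reject false none none none
          (by simp) (by simp) (by simp) (by simp [δN, scan])]
      simp
    have hh : ((mach δN).run A x ch (2 * x.length + 6 + 2 * l)).Halted := by
      rw [key2]; exact Or.inr rfl
    rw [OracleTM.run_of_halted _ A x ch hT hh, key2]
    exact ⟨Or.inr rfl, by simp [hA, cfg]⟩

end Pool.Agent.MP_e55146_lc

end

section

/-! Injectivity and lengths of the codes. -/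

namespace Pool.Agent.MP_e55146_lc

theorem pairCode_inj {a a' b b' : Str} (h : pairCode a b = pairCode a' b') : a = a' ∧ b = b' := by
  induction a generalizing a' with
  | nil =>
    cases a' with
    | nil => simpa [pairCode] using h
    | cons c a' => simp [pairCode] at h
  | cons c a ih =>
    cases a' with
    | nil => simp [pairCode] at h
    | cons c' a' =>
      simp only [pairCode, List.flatMap_cons, List.cons_append, List.nil_append, List.cons.injEq,
        true_and] at h
      obtain ⟨h1, h2⟩ := ih (a' := a') h.2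
      exact ⟨by rw [h.1, h1], h2⟩

theorem length_pairCode (a b : Str) : (pairCode a b).length = 2 * a.length + 1 + b.length := by
  induction a with
  | nil => simp [pairCode]; ring
  | cons c a ih =>
    simp only [pairCode, List.flatMap_cons, List.cons_append, List.nil_append, List.length_cons]
      at ih ⊢
    omega

theorem inputCode_inj {r r' : ℕ} {w w' : Str} (h : inputCode r w = inputCode r' w') :
    r = r' ∧ w = w' := by
  induction r generalizing r' with
  | zero =>
    cases r' with
    | zero => simpa [inputCode] using h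
    | succ r' => simp [inputCode, List.replicate_succ] at h
  | succ r ih =>
    cases r' with
    | zero => simp [inputCode, List.replicate_succ] at h
    | succ r' =>
      simp only [inputCode, List.replicate_succ, List.cons_append, List.cons.injEq, true_and] at h
      obtain ⟨h1, h2⟩ := ih (r' := r') h
      exact ⟨by rw [h1], h2⟩

theorem length_inputCode (r : ℕ) (w : Str) : (inputCode r w).length = r + 1 + w.length := by
  simp [inputCode]; ring

theorem posR_inj {x x' : Str} {t t' : ℕ} (h : posR x t = posR x' t') : x = x' ∧ t = t' := by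
  have h1 := congrArg List.reverse h
  simp only [posR, List.cons_append, List.reverse_cons, List.reverse_append,
    List.reverse_replicate, List.append_assoc, List.nil_append] at h1
  have h2 : inputCode t (x.reverse ++ [false]) = inputCode t' (x'.reverse ++ [false]) := h1
  obtain ⟨h3, h4⟩ := inputCode_inj h2
  exact ⟨by simpa using h4, h3⟩

theorem posQ_inj {x x' z z' : Str} (h : posQ x z = posQ x' z') : x = x' ∧ z = z' :=
  pairCode_inj (by simpa [posQ] using h)

theorem posQ_ne_posR (x z y : Str) (t : ℕ) : posQ x z ≠ posR y t := by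
  simp [posQ, posR]

theorem length_posR (x : Str) (t : ℕ) : (posR x t).length = x.length + 2 + t := by
  simp [posR]; ring

theorem bits_inj {a b : ℕ} (h : a.bits = b.bits) : a = b := by
  have : Nat.digits 2 a = Nat.digits 2 b := by
    rw [Nat.digits_two_eq_bits, Nat.digits_two_eq_bits, h]
  rw [← Nat.ofDigits_digits 2 a, this, Nat.ofDigits_digits]

theorem ratCode_inj {q q' : ℚ} (h : ratCode q = ratCode q') : q = q' := by
  simp only [ratCode, List.cons.injEq, decide_eq_decide] at h
  obtain ⟨h1, h2⟩ := h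
  obtain ⟨h3, h4⟩ := pairCode_inj h2
  have h5 := bits_inj h3
  have h6 := bits_inj h4
  rw [← Rat.num_neg, ← Rat.num_neg] at h1
  apply Rat.ext _ h6
  omega

theorem length_bits_le {a k : ℕ} (h : a < 2 ^ k) : a.bits.length ≤ k := by
  rw [Nat.size_eq_bits_len]
  exact Nat.size_le.2 h

/-- The code of a dyadic rational is short. -/
theorem length_ratCode_dyadic (a r k : ℕ) (ha : a < 2 ^ k) :
    (ratCode ((a : ℚ) / 2 ^ r)).length ≤ 2 * k + r + 3 := by
  set q : ℚ := (a : ℚ) / 2 ^ r with hq
  have hq' : q = ((a : ℤ) : ℚ) / (((2 ^ r : ℕ) : ℤ) : ℚ) := by rw [hq]; push_cast; rfl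
  have hden : q.den ≤ 2 ^ r := by
    have : (q.den : ℤ) ∣ ((2 ^ r : ℕ) : ℤ) := by
      rw [hq', ← Rat.divInt_eq_div]; exact Rat.den_dvd _ _
    exact Nat.le_of_dvd (by positivity) (Int.natCast_dvd_natCast.1 this)
  have hnum : q.num.natAbs < 2 ^ k := by
    rcases Nat.eq_zero_or_pos a with h0 | h0
    · subst h0; simp [hq]
    · have : q.num ∣ (a : ℤ) := by
        rw [hq', ← Rat.divInt_eq_div]; exact Rat.num_dvd _ (by positivity)
      have h2 : q.num.natAbs ∣ a := Int.natAbs_dvd_natAbs.2 this
      exact (Nat.le_of_dvd h0 h2).trans_lt ha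
  have h1 := length_bits_le hnum
  have h2 : q.den.bits.length ≤ r + 1 :=
    length_bits_le (hden.trans_lt (Nat.pow_lt_pow_right (by norm_num) (Nat.lt_succ_self r)))
  simp only [ratCode, List.length_cons, length_pairCode]
  omega

theorem bits_eq_append (n : ℕ) (hn : n ≠ 0) : ∃ l, n.bits = l ++ [true] := by
  induction n using Nat.binaryRec' with
  | zero => exact absurd rfl hn
  | bit b m hm ih =>
    rw [Nat.bits_append_bit m b hm]
    by_cases h0 : m = 0
    · subst h0
      exact ⟨[], by simp [hm rfl]⟩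
    · obtain ⟨l, hl⟩ := ih h0
      exact ⟨b :: l, by simp [hl]⟩

theorem stdEnum_inj {a b : ℕ} (h : stdEnum a = stdEnum b) : a = b := by
  obtain ⟨l, hl⟩ := bits_eq_append (a + 1) (by omega)
  obtain ⟨l', hl'⟩ := bits_eq_append (b + 1) (by omega)
  simp only [stdEnum, hl, hl', List.reverse_append, List.reverse_cons, List.reverse_nil,
    List.nil_append, List.singleton_append, List.tail_cons, List.reverse_inj] at h
  have : (a + 1).bits = (b + 1).bits := by rw [hl, hl', h]
  have := bits_inj this
  omega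

theorem length_stdEnum (n : ℕ) : (stdEnum n).length = Nat.size (n + 1) - 1 := by
  simp [stdEnum, Nat.size_eq_bits_len]

theorem length_stdEnum_mono : Monotone (fun n => (stdEnum n).length) := by
  intro a b h
  simp only [length_stdEnum]
  have := Nat.size_le_size (show a + 1 ≤ b + 1 by omega)
  omega

theorem length_stdEnum_le {n k : ℕ} (h : n + 1 < 2 ^ (k + 1)) : (stdEnum n).length ≤ k := by
  rw [length_stdEnum]
  have := Nat.size_le.2 h
  omega

theorem le_length_stdEnum {n k : ℕ} (h : 2 ^ k ≤ n + 1) : k ≤ (stdEnum n).length := by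
  rw [length_stdEnum]
  have := Nat.lt_size.2 h
  omega

theorem lt_two_pow_length_stdEnum (n : ℕ) : n + 1 < 2 ^ ((stdEnum n).length + 1) := by
  rw [length_stdEnum]
  have h1 := Nat.lt_size_self (n + 1)
  have h2 : 0 < Nat.size (n + 1) := Nat.size_pos.2 (by omega)
  rwa [Nat.sub_add_cancel h2]

end Pool.Agent.MP_e55146_lc

end

section

/-! Numerical parameters of the construction. -/

namespace Pool.Agent.MP_e55146_lc

open Filter

/-- Witness length for the `i`-th string. -/
def wl (i : ℕ) : ℕ := (stdEnum i).length ^ 2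

theorem wl_mono : Monotone wl := fun _ _ h => Nat.pow_le_pow_left (length_stdEnum_mono h) 2

/-- The guessing probability is small at scale `n`. -/
def GoodG (κ a n : ℕ) : Prop :=
  ∃ low ≤ n, (2 : ℝ) ^ a * (n * ((2 * (2 * n + 4) ^ κ : ℕ) : ℝ) *
    (1 / 2 ^ wl low + (2 * 2 ^ wl low) ^ low * 2 ^ n * (1 / 2 ^ (2 * n)))) ≤ 1

/-- Polynomial time is small at scale `n`. -/
def GoodL (κ n : ℕ) : Prop := ∀ i < 5 * n, ((stdEnum i).length + 2) ^ κ ≤ n

theorem two_sq_le (p : ℕ) (hp : 7 ≤ p) : 2 * p ^ 2 + 1 ≤ 2 ^ p := by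
  induction p, hp using Nat.le_induction with
  | base => norm_num
  | succ p hp ih => rw [pow_succ 2 p]; nlinarith

theorem eventually_poly_le (κ : ℕ) : ∀ᶠ p : ℕ in atTop, (2 * p + 4) ^ κ ≤ 4 ^ p := by
  have h := (isLittleO_pow_const_const_pow_of_one_lt (R := ℝ) κ (show (1 : ℝ) < 4 by norm_num)).bound
    (show (0 : ℝ) < 1 / 4 ^ κ by positivity)
  filter_upwards [h, eventually_ge_atTop 2] with p hp hp2
  rw [Real.norm_of_nonneg (by positivity), Real.norm_of_nonneg (by positivity)] at hp
  have h1 : (2 * p + 4) ^ κ ≤ (4 * p) ^ κ := Nat.pow_le_pow_left (by omega) _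
  refine h1.trans ?_
  have h2 : (4 : ℝ) ^ κ * (p : ℝ) ^ κ ≤ 4 ^ p := by
    calc (4 : ℝ) ^ κ * (p : ℝ) ^ κ ≤ 4 ^ κ * (1 / 4 ^ κ * 4 ^ p) := by gcongr
      _ = 4 ^ p := by field_simp
  rw [mul_pow]
  exact_mod_cast h2

theorem goodL_pow (κ p : ℕ) (h : (2 * p + 4) ^ κ ≤ 4 ^ p) : GoodL κ (4 ^ p) := by
  intro i hi
  refine le_trans (Nat.pow_le_pow_left ?_ _) h
  have : (stdEnum i).length ≤ 2 * p + 2 := by
    apply length_stdEnum_le
    have : 2 ^ (2 * p + 2 + 1) = 8 * 4 ^ p := by
      rw [pow_add, pow_add, pow_mul]; norm_num; ring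
    omega
  omega

theorem goodG_pow (κ a p : ℕ) (hp : a + 4 * κ + 7 ≤ p) : GoodG κ a (4 ^ p) := by
  have h2p : 0 < 2 ^ p := by positivity
  have h4 : 4 ^ p = 2 ^ p * 2 ^ p := by rw [← mul_pow]; norm_num
  have hlow : 2 ^ p - 1 ≤ 4 ^ p := by rw [h4]; nlinarith [Nat.sub_le (2 ^ p) 1]
  refine ⟨2 ^ p - 1, hlow, ?_⟩
  have hlen : (stdEnum (2 ^ p - 1)).length = p := by
    apply le_antisymm
    · apply length_stdEnum_le
      rw [pow_succ]; omega
    · apply le_length_stdEnum; omega
  have hwl : wl (2 ^ p - 1) = p ^ 2 := by rw [wl, hlen]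
  rw [hwl]
  set n := 4 ^ p with hn
  set E := a + 2 * p + 1 + (2 * p + 2) * κ with hE
  have hn2 : n = 2 ^ (2 * p) := by rw [hn, pow_mul]; norm_num
  have hn4 : 2 ≤ n := by
    rw [hn2]
    calc 2 = 2 ^ 1 := rfl
      _ ≤ _ := Nat.pow_le_pow_right (by norm_num) (by omega)
  have hX : 2 ^ a * (n * (2 * (2 * n + 4) ^ κ)) ≤ 2 ^ E := by
    have h1 : 2 * n + 4 ≤ 2 ^ (2 * p + 2) := by rw [pow_add, ← hn2]; omega
    have h2 : (2 * n + 4) ^ κ ≤ 2 ^ ((2 * p + 2) * κ) := by
      rw [pow_mul]; exact Nat.pow_le_pow_left h1 _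
    calc 2 ^ a * (n * (2 * (2 * n + 4) ^ κ)) ≤ 2 ^ a * (n * (2 * 2 ^ ((2 * p + 2) * κ))) := by
          gcongr
      _ = 2 ^ E := by rw [hE, hn2]; ring
  have hE1 : E + 1 ≤ p ^ 2 := by
    have : p * (a + 4 * κ + 7) ≤ p * p := Nat.mul_le_mul_left _ hp
    rw [hE]; nlinarith
  have hE2 : E + 1 + (p ^ 2 + 1) * (2 ^ p - 1) ≤ n := by
    have h1 := two_sq_le p (by omega)
    have h2 : (p ^ 2 + 1) * (2 ^ p - 1) ≤ (p ^ 2 + 1) * 2 ^ p :=
      Nat.mul_le_mul_left _ (Nat.sub_le _ _)
    have h3 : (2 * p ^ 2 + 1) * 2 ^ p ≤ 2 ^ p * 2 ^ p := Nat.mul_le_mul_right _ h1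
    have h5 : p ^ 2 ≤ p ^ 2 * 2 ^ p := Nat.le_mul_of_pos_right _ h2p
    rw [h4]
    nlinarith
  have hXR : (2 : ℝ) ^ a * (n * ((2 * (2 * n + 4) ^ κ : ℕ) : ℝ)) ≤ 2 ^ E := by exact_mod_cast hX
  have t1 : (2 : ℝ) ^ E * (1 / 2 ^ (p ^ 2)) ≤ 1 / 2 := by
    rw [mul_one_div, div_le_div_iff₀ (by positivity) (by norm_num), one_mul, ← pow_succ]
    exact pow_le_pow_right₀ (by norm_num) hE1
  have t2 : (2 : ℝ) ^ E * ((2 * 2 ^ (p ^ 2)) ^ (2 ^ p - 1) * 2 ^ n * (1 / 2 ^ (2 * n))) ≤ 1 / 2 := by
    have e : (2 : ℝ) ^ E * ((2 * 2 ^ (p ^ 2)) ^ (2 ^ p - 1) * 2 ^ n * (1 / 2 ^ (2 * n))) =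
        2 ^ (E + (p ^ 2 + 1) * (2 ^ p - 1)) / 2 ^ n := by
      rw [← pow_succ', ← pow_mul, two_mul n, pow_add (2 : ℝ) n n, pow_add (2 : ℝ) E]
      field_simp
    rw [e, div_le_div_iff₀ (by positivity) (by norm_num), one_mul, ← pow_succ]
    exact pow_le_pow_right₀ (by norm_num) (by omega)
  calc _ = ((2 : ℝ) ^ a * (n * ((2 * (2 * n + 4) ^ κ : ℕ) : ℝ))) *
        (1 / 2 ^ (p ^ 2) + (2 * 2 ^ (p ^ 2)) ^ (2 ^ p - 1) * 2 ^ n * (1 / 2 ^ (2 * n))) := by ring
    _ ≤ 2 ^ E *
        (1 / 2 ^ (p ^ 2) + (2 * 2 ^ (p ^ 2)) ^ (2 ^ p - 1) * 2 ^ n * (1 / 2 ^ (2 * n))) := by gcongr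
    _ ≤ 1 := by rw [mul_add]; linarith

theorem exists_good (κ a lb : ℕ) : ∃ n, lb ≤ n ∧ GoodG κ a n ∧ GoodL κ n := by
  obtain ⟨p, h1, h2⟩ :=
    ((eventually_poly_le κ).and (eventually_ge_atTop (a + 4 * κ + 7 + lb))).exists
  refine ⟨4 ^ p, ?_, goodG_pow κ a p (by omega), goodL_pow κ p h1⟩
  have : p < 4 ^ p := Nat.lt_pow_self (by norm_num)
  omega

/-- The advice budget before stage `κ`. -/
def budget (n : ℕ → ℕ) : ℕ → ℕ
  | 0 => 3
  | κ + 1 => 6 * n κ

/-- The requirements on the scales. -/
structure Params (n : ℕ → ℕ) : Prop where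
  big : ∀ κ, 4 * κ + 6 ≤ n κ
  grow : ∀ κ, 16 * n κ ≤ n (κ + 1)
  reach : ∀ κ, (2 * n κ + 4) ^ κ ≤ n (κ + 1)
  goodG : ∀ κ, GoodG κ (budget n κ) (n κ)
  goodL : ∀ κ, GoodL κ (n κ)

theorem exists_params : ∃ n, Params n := by
  choose F hF using exists_good
  let n : ℕ → ℕ := fun κ => Nat.rec (F 0 3 6)
    (fun κ m => F (κ + 1) (6 * m) ((2 * m + 4) ^ κ + 16 * m + 4 * κ + 10)) κ
  have h0 : n 0 = F 0 3 6 := rfl
  have hs : ∀ κ, n (κ + 1) =
      F (κ + 1) (6 * n κ) ((2 * n κ + 4) ^ κ + 16 * n κ + 4 * κ + 10) := fun _ => rfl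
  have hlb : ∀ κ, (2 * n κ + 4) ^ κ + 16 * n κ + 4 * κ + 10 ≤ n (κ + 1) := fun κ => by
    rw [hs]; exact (hF _ _ _).1
  refine ⟨n, ⟨?_, ?_, ?_, ?_, ?_⟩⟩
  · intro κ
    cases κ with
    | zero => rw [h0]; exact (hF _ _ _).1
    | succ κ => have := hlb κ; omega
  · intro κ; have := hlb κ; omega
  · intro κ; have := hlb κ; omega
  · intro κ
    cases κ with
    | zero => rw [h0]; exact (hF _ _ _).2.1
    | succ κ => rw [hs]; exact (hF _ _ _).2.1
  · intro κ
    cases κ with
    | zero => rw [h0]; exact (hF _ _ _).2.2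
    | succ κ => rw [hs]; exact (hF _ _ _).2.2

theorem Params.mono {n : ℕ → ℕ} (h : Params n) : Monotone n :=
  monotone_nat_of_le_succ fun κ => by have := h.grow κ; omega

theorem Params.budget_le {n : ℕ → ℕ} (h : Params n) (κ : ℕ) : budget n κ + 3 ≤ n κ := by
  cases κ with
  | zero => have := h.big 0; simp only [budget]; omega
  | succ κ => have := h.grow κ; have := h.big κ; simp only [budget]; omega

/-- The basic growth rate `2 ^ (1 / 32)`. -/
noncomputable def σ : ℝ := (2 : ℝ) ^ (1 / 32 : ℝ)

theorem one_lt_σ : 1 < σ := Real.one_lt_rpow (by norm_num) (by norm_num)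

theorem σ_pow : σ ^ 32 = 2 := by
  unfold σ
  rw [← Real.rpow_natCast, ← Real.rpow_mul (by norm_num)]
  norm_num

theorem exp_le_σ_sq : Real.exp (1 / 32) ≤ σ ^ 2 := by
  have : σ ^ 2 = Real.exp (Real.log 2 * (1 / 16)) := by
    unfold σ
    rw [← Real.rpow_natCast, ← Real.rpow_mul (by norm_num), Real.rpow_def_of_pos (by norm_num)]
    norm_num
  rw [this]
  apply Real.exp_le_exp.2
  have := Real.log_two_gt_d9
  linarith

theorem prod_le_geom (a : ℕ → ℝ) (ρ : ℝ) (hρ : 1 ≤ ρ) (h1 : ∀ j, 1 ≤ a j) (j0 : ℕ)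
    (h2 : ∀ j, j0 ≤ j → a j ≤ ρ) :
    ∃ C : ℝ, 0 < C ∧ ∀ m, ∏ j ∈ Finset.range m, a j ≤ C * ρ ^ m := by
  have hpos : ∀ m, 0 < ∏ j ∈ Finset.range m, a j :=
    fun m => Finset.prod_pos fun j _ => by linarith [h1 j]
  refine ⟨∏ j ∈ Finset.range j0, a j, hpos j0, fun m => ?_⟩
  have hle : ∀ m ≤ j0, ∏ j ∈ Finset.range m, a j ≤ (∏ j ∈ Finset.range j0, a j) * ρ ^ m := by
    intro m hm
    have e1 : ∏ j ∈ Finset.range m, a j ≤ ∏ j ∈ Finset.range j0, a j :=
      Finset.prod_le_prod_of_subset_of_one_le (Finset.range_mono hm)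
        (fun j _ => by linarith [h1 j]) (fun j _ _ => h1 j)
    exact e1.trans (le_mul_of_one_le_right (hpos j0).le (one_le_pow₀ hρ))
  rcases le_total m j0 with hm | hm
  · exact hle m hm
  · induction m, hm using Nat.le_induction with
    | base => exact hle j0 le_rfl
    | succ m hm ih =>
      rw [Finset.prod_range_succ, pow_succ, ← mul_assoc]
      exact mul_le_mul ih (h2 m hm) (by linarith [h1 m])
        (mul_nonneg (hpos j0).le (pow_nonneg (by linarith) _))

theorem gamma_le (c : ℕ) : ∃ C : ℝ, 0 < C ∧ ∀ m,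
    ∏ j ∈ Finset.range m, (1 + 1 / (2 : ℝ) ^ wl j) ^ (2 * (2 * j + 4) ^ c) ≤ C * (σ ^ 2) ^ m := by
  apply prod_le_geom _ _ (one_le_pow₀ one_lt_σ.le) _ (2 ^ (c + 6))
  · intro j hj
    set g := (stdEnum j).length with hg
    have hg1 : c + 6 ≤ g := le_length_stdEnum (by omega)
    have hg2 : j + 1 < 2 ^ (g + 1) := lt_two_pow_length_stdEnum j
    have h3 : 2 * j + 4 ≤ 2 ^ (g + 3) := by
      have : 2 ^ (g + 3) = 4 * 2 ^ (g + 1) := by ring
      omega
    have h4 : 32 * (2 * (2 * j + 4) ^ c) ≤ 2 ^ wl j := by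
      calc 32 * (2 * (2 * j + 4) ^ c) ≤ 32 * (2 * (2 ^ (g + 3)) ^ c) := by gcongr
        _ = 2 ^ (6 + (g + 3) * c) := by rw [← pow_mul, pow_add]; ring
        _ ≤ 2 ^ wl j := by
          apply Nat.pow_le_pow_right (by norm_num)
          rw [wl, ← hg]
          nlinarith
    have h5 : ((2 * (2 * j + 4) ^ c : ℕ) : ℝ) * (1 / (2 : ℝ) ^ wl j) ≤ 1 / 32 := by
      rw [mul_one_div, div_le_div_iff₀ (by positivity) (by norm_num), one_mul, mul_comm]
      exact_mod_cast h4
    calc (1 + 1 / (2 : ℝ) ^ wl j) ^ (2 * (2 * j + 4) ^ c)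
        ≤ (Real.exp (1 / (2 : ℝ) ^ wl j)) ^ (2 * (2 * j + 4) ^ c) := by
          gcongr
          rw [add_comm]; exact Real.add_one_le_exp _
      _ = Real.exp (((2 * (2 * j + 4) ^ c : ℕ) : ℝ) * (1 / (2 : ℝ) ^ wl j)) := by
          rw [Real.exp_nat_mul]
      _ ≤ Real.exp (1 / 32) := Real.exp_le_exp.2 h5
      _ ≤ σ ^ 2 := exp_le_σ_sq
  · intro j
    apply one_le_pow₀
    have : (0 : ℝ) ≤ 1 / 2 ^ wl j := by positivity
    linarith

end Pool.Agent.MP_e55146_lc

end

section

/-! The oracle built from hidden witnesses and a table of a martingale. -/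

namespace Pool.Agent.MP_e55146_lc

/-- The `9/10`-gale of a martingale. -/
noncomputable def galeOf (M : Str → ℝ) (w : Str) : ℝ := (2 : ℝ) ^ (-(w.length : ℝ) / 10) * M w

/-- Dyadic approximation. -/
noncomputable def approx (x : ℝ) (r : ℕ) : ℚ := (⌊2 ^ r * x⌋₊ : ℚ) / 2 ^ r

/-- The table entry. -/
noncomputable def entry (M : Str → ℝ) (r : ℕ) (w : Str) : Str := ratCode (approx (galeOf M w) r)

/-- The oracle. -/
def orc (M : Str → ℝ) (ω : Om wl) : Set Str :=
  {q | (∃ x z, q = posQ x z ∧ z.length < x.length ^ 2) ∨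
    (∃ i, bits ω i = true ∧ q = posQ (stdEnum i) (List.ofFn (ω i).2 ++ [false])) ∨
    (∃ r w i, q = posR (inputCode r w) (2 * i) ∧ i < (entry M r w).length) ∨
    (∃ r w i, q = posR (inputCode r w) (2 * i + 1) ∧ (entry M r w)[i]? = some true)}

theorem orc_witness (M : Str → ℝ) (ω : Om wl) (i : ℕ) (y : Fin (wl i) → Bool) :
    posQ (stdEnum i) (List.ofFn y ++ [false]) ∈ orc M ω ↔ ω i = (true, y) := by
  constructor
  · rintro (⟨x, z, h, hz⟩ | ⟨j, hj, h⟩ | ⟨r, w, j, h, _⟩ | ⟨r, w, j, h, _⟩)
    · obtain ⟨rfl, rfl⟩ := posQ_inj h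
      simp [wl] at hz
    · obtain ⟨h1, h2⟩ := posQ_inj h
      obtain rfl := stdEnum_inj h1
      have h3 := List.ofFn_injective (List.append_cancel_right h2)
      exact Prod.ext hj h3.symm
    · exact absurd h (posQ_ne_posR _ _ _ _)
    · exact absurd h (posQ_ne_posR _ _ _ _)
  · intro h
    exact Or.inr (Or.inl ⟨i, by simp [bits, h], by rw [h]⟩)

theorem orc_dich (M : Str → ℝ) : Dich (orc M) := by
  intro q
  by_cases h : ∃ (i : ℕ) (y : Fin (wl i) → Bool), q = posQ (stdEnum i) (List.ofFn y ++ [false])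
  · obtain ⟨i, y, rfl⟩ := h
    exact Or.inr ⟨i, y, fun ω => orc_witness M ω i y⟩
  · left
    have : ∀ ω : Om wl, ¬ ∃ i, bits ω i = true ∧
        q = posQ (stdEnum i) (List.ofFn (ω i).2 ++ [false]) := by
      rintro ω ⟨i, _, hi⟩
      exact h ⟨i, _, hi⟩
    intro ω ω'
    simp only [orc, Set.mem_ofPred_eq, this]

theorem orc_congr (M M' : Str → ℝ) (ω : Om wl) (q : Str)
    (h : ∀ r w t, q = posR (inputCode r w) t → M w = M' w) : q ∈ orc M ω ↔ q ∈ orc M' ω := by
  have key : ∀ r w t, q = posR (inputCode r w) t → entry M r w = entry M' r w := by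
    intro r w t hq
    simp only [entry, galeOf, h r w t hq]
  simp only [orc, Set.mem_ofPred_eq]
  apply or_congr Iff.rfl
  apply or_congr Iff.rfl
  apply or_congr
  · constructor
    · rintro ⟨r, w, i, h1, h2⟩; exact ⟨r, w, i, h1, key r w _ h1 ▸ h2⟩
    · rintro ⟨r, w, i, h1, h2⟩; exact ⟨r, w, i, h1, (key r w _ h1).symm ▸ h2⟩
  · constructor
    · rintro ⟨r, w, i, h1, h2⟩; exact ⟨r, w, i, h1, key r w _ h1 ▸ h2⟩
    · rintro ⟨r, w, i, h1, h2⟩; exact ⟨r, w, i, h1, (key r w _ h1).symm ▸ h2⟩

theorem length_le_of_posR {q w : Str} {r t : ℕ} (h : q = posR (inputCode r w) t) :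
    w.length ≤ q.length := by
  rw [h, length_posR, length_inputCode]; omega

theorem orc_even (M : Str → ℝ) (ω : Om wl) (r : ℕ) (w : Str) (i : ℕ) :
    posR (inputCode r w) (2 * i) ∈ orc M ω ↔ i < (entry M r w).length := by
  constructor
  · rintro (⟨x, z, h, hz⟩ | ⟨j, hj, h⟩ | ⟨r', w', j, h, hj⟩ | ⟨r', w', j, h, _⟩)
    · exact absurd h.symm (posQ_ne_posR _ _ _ _)
    · exact absurd h.symm (posQ_ne_posR _ _ _ _)
    · obtain ⟨h1, h2⟩ := posR_inj h
      obtain ⟨rfl, rfl⟩ := inputCode_inj h1
      have : i = j := by omega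
      rwa [this]
    · have := (posR_inj h).2
      omega
  · intro h
    exact Or.inr (Or.inr (Or.inl ⟨r, w, i, rfl, h⟩))

theorem orc_odd (M : Str → ℝ) (ω : Om wl) (r : ℕ) (w : Str) (i : ℕ) :
    posR (inputCode r w) (2 * i + 1) ∈ orc M ω ↔ (entry M r w)[i]? = some true := by
  constructor
  · rintro (⟨x, z, h, hz⟩ | ⟨j, hj, h⟩ | ⟨r', w', j, h, hj⟩ | ⟨r', w', j, h, hj⟩)
    · exact absurd h.symm (posQ_ne_posR _ _ _ _)
    · exact absurd h.symm (posQ_ne_posR _ _ _ _)
    · have := (posR_inj h).2
      omega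
    · obtain ⟨h1, h2⟩ := posR_inj h
      obtain ⟨rfl, rfl⟩ := inputCode_inj h1
      have : i = j := by omega
      rwa [this]
  · intro h
    exact Or.inr (Or.inr (Or.inr ⟨r, w, i, rfl, h⟩))

/-- The language of hidden bits. -/
def hidden (ω : Om wl) : Set Str := {x | ∃ i, x = stdEnum i ∧ bits ω i = true}

theorem charSeq_hidden (ω : Om wl) : charSeq (hidden ω) = bits ω := by
  funext i
  unfold charSeq hidden
  cases h : bits ω i
  · simp only [Set.mem_ofPred_eq, decide_eq_false_iff_not]
    rintro ⟨j, h1, h2⟩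
    obtain rfl := stdEnum_inj h1
    simp [h] at h2
  · simp only [Set.mem_ofPred_eq, decide_eq_true_eq]
    exact ⟨i, rfl, h⟩

theorem hidden_mem_NP (M : Str → ℝ) (ω : Om wl) : hidden ω ∈ NP (orc M ω) := by
  have h0 : ∀ x z : Str, z.length < x.length ^ 2 → posQ x z ∈ orc M ω :=
    fun x z hz => Or.inl ⟨x, z, rfl, hz⟩
  have h1 : ∀ x z : Str, z.length = x.length ^ 2 → posQ x z ∉ orc M ω := by
    rintro x z hz (⟨x', z', h, hz'⟩ | ⟨j, hj, h⟩ | ⟨r', w', j, h, hj⟩ | ⟨r', w', j, h, hj⟩)
    · obtain ⟨rfl, rfl⟩ := posQ_inj h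
      omega
    · obtain ⟨rfl, rfl⟩ := posQ_inj h
      simp [wl] at hz
    · exact absurd h (posQ_ne_posR _ _ _ _)
    · exact absurd h (posQ_ne_posR _ _ _ _)
  let p : Polynomial ℕ := 2 * Polynomial.X + 6 + 2 * Polynomial.X ^ 2
  have hp : ∀ n, p.eval n = 2 * n + 6 + 2 * n ^ 2 := by intro n; simp [p]
  refine ⟨mach δN, p, fun x ch => ?_, fun x => ?_⟩
  · exact (runN_final _ x _ ch (h0 x) (h1 x) _ (by rw [hp])).1
  · constructor
    · rintro ⟨i, rfl, hi⟩
      let base := 2 * (stdEnum i).length + 2
      let y : ℕ → Bool := fun j => if h : j < wl i then (ω i).2 ⟨j, h⟩ else false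
      refine ⟨fun t => y ((t - base) / 2), ?_⟩
      rw [(runN_final _ _ _ _ (h0 _) (h1 _) _ (by rw [hp])).2]
      have : firstBits (fun j => y ((2 * (stdEnum i).length + 2 + 2 * j + 1 - base) / 2))
          ((stdEnum i).length ^ 2) = List.ofFn (ω i).2 := by
        apply List.ext_getElem
        · simp [wl]
        · intro j hj1 hj2
          have hj : j < wl i := by simpa using hj2
          have e : (2 * (stdEnum i).length + 2 + 2 * j + 1 - base) / 2 = j := by
            simp only [base]; omega
          simp [firstBits, e, y, hj]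
      rw [this]
      exact Or.inr (Or.inl ⟨i, hi, rfl⟩)
    · rintro ⟨ch, hch⟩
      rw [(runN_final _ _ _ _ (h0 _) (h1 _) _ (by rw [hp])).2] at hch
      rcases hch with ⟨x', z', h, hz'⟩ | ⟨j, hj, h⟩ | ⟨r', w', j, h, hj⟩ | ⟨r', w', j, h, hj⟩
      · obtain ⟨rfl, rfl⟩ := posQ_inj h
        simp at hz'
      · exact ⟨j, (posQ_inj h).1, hj⟩
      · exact absurd h (posQ_ne_posR _ _ _ _)
      · exact absurd h (posQ_ne_posR _ _ _ _)

theorem galeOf_nonneg {M : Str → ℝ} (h0 : ∀ w, 0 ≤ M w) (w : Str) : 0 ≤ galeOf M w :=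
  mul_nonneg (by positivity) (h0 w)

theorem galeOf_isGale {M : Str → ℝ} (hM : IsMart M) (h0 : ∀ w, 0 ≤ M w) :
    IsGale (9 / 10) (galeOf M) := by
  refine ⟨galeOf_nonneg h0, fun w => ?_⟩
  unfold galeOf
  simp only [List.length_append, List.length_singleton]
  rw [hM w, ← mul_add, ← mul_assoc, ← Real.rpow_add (by norm_num)]
  have : (-(9 / 10 : ℝ) + -((w.length + 1 : ℕ) : ℝ) / 10) = -(w.length : ℝ) / 10 + (-1) := by
    push_cast; ring
  rw [this, Real.rpow_add (by norm_num), Real.rpow_neg_one]
  ring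

theorem approx_close (x : ℝ) (hx : 0 ≤ x) (r : ℕ) : |(approx x r : ℝ) - x| ≤ 1 / 2 ^ r := by
  unfold approx
  push_cast
  have hp : (0 : ℝ) < 2 ^ r := by positivity
  have h1 := Nat.floor_le (show 0 ≤ 2 ^ r * x by positivity)
  have h2 := Nat.lt_floor_add_one (2 ^ r * x)
  have : (⌊2 ^ r * x⌋₊ : ℝ) / 2 ^ r - x = ((⌊2 ^ r * x⌋₊ : ℝ) - 2 ^ r * x) / 2 ^ r := by
    field_simp
  rw [this, abs_div, abs_of_pos hp]
  gcongr
  rw [abs_le]
  constructor <;> linarith

theorem galeOf_pcomputable {M : Str → ℝ} (hM : IsMart M) (h0 : ∀ w, 0 ≤ M w) (h1 : M [] = 1)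
    (ω : Om wl) : PComputable (orc M ω) (galeOf M) := by
  let p : Polynomial ℕ := 13 * Polynomial.X + 25
  have hp : ∀ n, p.eval n = 13 * n + 25 := by intro n; simp [p]
  refine ⟨fun a => approx (galeOf M a.2) a.1, mach δD, p, rfl, fun r w ch => ?_,
    fun r w => approx_close _ (galeOf_nonneg h0 w) r⟩
  have hlen : (entry M r w).length ≤ 2 * (r + w.length + 1) + r + 3 := by
    apply length_ratCode_dyadic
    have h2 : galeOf M w ≤ 2 ^ w.length := by
      have h3 : (2 : ℝ) ^ (-(w.length : ℝ) / 10) ≤ 1 :=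
        Real.rpow_le_one_of_one_le_of_nonpos (by norm_num)
          (by have : (0 : ℝ) ≤ w.length := by positivity
              linarith)
      have h4 := hM.le_pow h0 h1 w
      unfold galeOf
      nlinarith [h0 w]
    rw [Nat.floor_lt (mul_nonneg (by positivity) (galeOf_nonneg h0 w))]
    push_cast
    calc (2 : ℝ) ^ r * galeOf M w ≤ 2 ^ r * 2 ^ w.length := by gcongr
      _ < _ := by
        rw [← pow_add]
        exact pow_lt_pow_right₀ (by norm_num) (Nat.lt_succ_self _)
  apply runD_final (orc M ω) (inputCode r w) (entry M r w) ch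
  · intro i _; exact orc_even M ω r w i
  · intro i hi
    rw [orc_odd, List.getElem?_eq_getElem hi]
    simp
  · rw [hp, length_inputCode]; omega

end Pool.Agent.MP_e55146_lc

end

section

/-! The stage construction of the helper martingale, and its success on NP. -/

namespace Pool.Agent.MP_e55146_lc

open MeasureTheory Filter

/-- An enumeration of all machines. -/
noncomputable def enumTM : ℕ → OracleTM := (exists_surjective_nat OracleTM).choose

theorem enumTM_surj : Function.Surjective enumTM := (exists_surjective_nat OracleTM).choose_spec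

/-- The machine treated at stage `k`. -/
noncomputable def mcM (k : ℕ) : OracleTM := enumTM k.unpair.1.unpair.1

/-- The exponent treated at stage `k`. -/
def mcC (k : ℕ) : ℕ := k.unpair.1.unpair.2

theorem mcC_le (k : ℕ) : mcC k ≤ k :=
  (Nat.unpair_right_le _).trans (Nat.unpair_left_le _)

theorem exists_stage (M : OracleTM) (c N : ℕ) : ∃ k, N ≤ k ∧ mcM k = M ∧ mcC k = c := by
  obtain ⟨a, rfl⟩ := enumTM_surj M
  exact ⟨Nat.pair (Nat.pair a c) N, Nat.right_le_pair _ _, by simp [mcM], by simp [mcC]⟩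

/-- The language accepted by the clocked machine of stage `k`. -/
def lang (k : ℕ) (A : Set Str) : Set Str :=
  {x | ∃ ch, ((mcM k).run A x ch ((x.length + 2) ^ mcC k)).state = State.accept}

/-- The first bits of the language of stage `k`. -/
noncomputable def word (k L : ℕ) (A : Set Str) : Str := firstBits (charSeq (lang k A)) L

theorem word_local {k n L : ℕ} (hL : L ≤ 5 * n) (hg : GoodL k n) (A A' : Set Str)
    (h : ∀ q : Str, q.length ≤ n → (q ∈ A ↔ q ∈ A')) : word k L A = word k L A' := by
  apply firstBits_congr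
  intro i hi
  have h1 : ((stdEnum i).length + 2) ^ mcC k ≤ n :=
    (Nat.pow_le_pow_right (by omega) (mcC_le k)).trans (hg i (by omega))
  have h2 : stdEnum i ∈ lang k A ↔ stdEnum i ∈ lang k A' := by
    simp only [lang, Set.mem_ofPred_eq]
    apply exists_congr
    intro ch
    rw [OracleTM.run_local _ A A' _ ch _ (fun q hq => h q (hq.trans h1))]
  unfold charSeq
  exact decide_eq_decide.2 h2

variable (n : ℕ → ℕ)

/-- The prior distribution of the word of stage `k`. -/
noncomputable def mu (k : ℕ) (M : Str → ℝ) (h : Str) : ℝ :=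
  (Pr wl).real {ω | word k (4 * n k) (orc M ω) = h}

theorem mu_nonneg (k : ℕ) (M : Str → ℝ) (h : Str) : 0 ≤ mu n k M h := measureReal_nonneg

theorem sum_mu_le {n : ℕ → ℕ} (hn : Params n) (k : ℕ) (M : Str → ℝ) :
    ∑ h ∈ words (4 * n k), mu n k M h ≤ 1 :=
  sum_prob_le_one (orc_dich M) (word k (4 * n k)) (n k)
    (fun A A' h => word_local (by omega) (hn.goodL k) A A' h) _

/-- One stage. -/
noncomputable def nxt (k : ℕ) (M : Str → ℝ) (u : Option Str) : Str → ℝ :=
  nextM k (n k) (mu n k M) M u

open Classical in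
/-- The advice of stage `k`. -/
noncomputable def adv (k : ℕ) (M : Str → ℝ) (ω : Om wl) : Option Str :=
  if mu n k M (word k (4 * n k) (orc M ω)) < 1 / 2 ^ (2 * n k)
  then some (word k (5 * n k) (orc M ω)) else none

/-- The martingale after `k` stages. -/
noncomputable def Mst (ω : Om wl) : ℕ → Str → ℝ
  | 0 => fun _ => 1
  | k + 1 => nxt n k (Mst ω k) (adv n k (Mst ω k) ω)

open Classical in
/-- The possible martingales after `k` stages. -/
noncomputable def MS : ℕ → Finset (Str → ℝ)
  | 0 => {fun _ => 1}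
  | k + 1 => (MS k ×ˢ Finset.insertNone (words (5 * n k))).image (fun a => nxt n k a.1 a.2)

/-- The limit martingale. -/
noncomputable def Minf (ω : Om wl) (w : Str) : ℝ := Mst n ω w.length w

theorem adv_length (k : ℕ) (M : Str → ℝ) (ω : Om wl) (z : Str) (h : adv n k M ω = some z) :
    z.length = 5 * n k := by
  unfold adv at h
  split_ifs at h
  rw [← Option.some.inj h]
  simp [word]

theorem Mst_mem (ω : Om wl) (k : ℕ) : Mst n ω k ∈ MS n k := by
  classical
  induction k with
  | zero => simp [Mst, MS]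
  | succ k ih =>
    simp only [Mst, MS]
    refine Finset.mem_image.2 ⟨(Mst n ω k, adv n k (Mst n ω k) ω), ?_, rfl⟩
    refine Finset.mem_product.2 ⟨ih, Finset.mem_insertNone.2 ?_⟩
    intro z hz
    exact mem_words.2 (adv_length n k _ ω z hz)

theorem card_MS {n : ℕ → ℕ} (hn : Params n) (k : ℕ) :
    (k + 1) * (MS n k).card * 2 ^ (k + 3) ≤ 2 ^ budget n k := by
  classical
  induction k with
  | zero => simp [MS, budget]
  | succ k ih =>
    have h1 : (MS n (k + 1)).card ≤ (MS n k).card * 2 ^ (5 * n k + 1) := by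
      simp only [MS]
      refine Finset.card_image_le.trans ?_
      rw [Finset.card_product, Finset.card_insertNone]
      apply Nat.mul_le_mul_left
      have := card_words (5 * n k)
      have h2 : 0 < 2 ^ (5 * n k) := by positivity
      rw [pow_succ]; omega
    have h2 := hn.budget_le k
    calc (k + 1 + 1) * (MS n (k + 1)).card * 2 ^ (k + 1 + 3)
        ≤ (2 * (k + 1)) * ((MS n k).card * 2 ^ (5 * n k + 1)) * 2 ^ (k + 1 + 3) := by
          gcongr; omega
      _ = ((k + 1) * (MS n k).card * 2 ^ (k + 3)) * 2 ^ (5 * n k + 3) := by ring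
      _ ≤ 2 ^ budget n k * 2 ^ (5 * n k + 3) := by gcongr
      _ ≤ _ := by
        rw [← pow_add]
        exact Nat.pow_le_pow_right (by norm_num) (by simp only [budget] at *; omega)

theorem Mst_mart (ω : Om wl) (k : ℕ) : IsMart (Mst n ω k) := by
  induction k with
  | zero => intro w; simp [Mst]
  | succ k ih => exact nextM_mart _ _ _ ih _

theorem Mst_stable {n : ℕ → ℕ} (hn : Params n) (ω : Om wl) (w : Str) {k k' : ℕ} (h : k ≤ k')
    (hw : w.length ≤ n k) : Mst n ω k' w = Mst n ω k w := by
  induction k', h using Nat.le_induction with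
  | base => rfl
  | succ j hj ih =>
    rw [← ih]
    exact nextM_short _ _ _ _ _ (adv_length n j _ ω) w (hw.trans (hn.mono hj))

theorem Minf_eq {n : ℕ → ℕ} (hn : Params n) (ω : Om wl) (w : Str) {k : ℕ}
    (hw : w.length ≤ n k) : Minf n ω w = Mst n ω k w := by
  have h1 : w.length ≤ n w.length := by have := hn.big w.length; omega
  unfold Minf
  rw [← Mst_stable hn ω w (le_max_left w.length k) h1, Mst_stable hn ω w (le_max_right _ _) hw]

theorem Mst_step_ge {n : ℕ → ℕ} (hn : Params n) (ω : Om wl) (w : Str) (k : ℕ) :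
    Mst n ω k w - (1 / 2) ^ k ≤ Mst n ω (k + 1) w - (1 / 2) ^ (k + 1) := by
  simp only [Mst, nxt]
  rw [nextM_eq]
  have h1 := prior_nonneg (mu_nonneg n k (Mst n ω k)) (sum_mu_le hn k _) w
  have h2 := leak_nonneg (n k) (adv n k (Mst n ω k) ω) w
  have : (0 : ℝ) ≤ (1 / 2) ^ (k + 2) * (prior (mu n k (Mst n ω k)) (n k) w +
    leak (n k) (adv n k (Mst n ω k) ω) w) := by positivity
  linarith

theorem Mst_mono {n : ℕ → ℕ} (hn : Params n) (ω : Om wl) (w : Str) :
    Monotone (fun k => Mst n ω k w - (1 / 2) ^ k) :=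
  monotone_nat_of_le_succ (Mst_step_ge hn ω w)

theorem Mst_ge {n : ℕ → ℕ} (hn : Params n) (ω : Om wl) (w : Str) (k : ℕ) :
    (1 / 2) ^ k ≤ Mst n ω k w := by
  have := Mst_mono hn ω w (Nat.zero_le k)
  simp only [Mst, pow_zero, sub_self] at this
  linarith

theorem Minf_nonneg {n : ℕ → ℕ} (hn : Params n) (ω : Om wl) (w : Str) : 0 ≤ Minf n ω w :=
  le_trans (by positivity) (Mst_ge hn ω w _)

theorem Minf_nil (ω : Om wl) : Minf n ω [] = 1 := rfl

theorem Minf_mart {n : ℕ → ℕ} (hn : Params n) (ω : Om wl) : IsMart (Minf n ω) := by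
  intro w
  have h1 : w.length + 1 ≤ n (w.length + 1) := by have := hn.big (w.length + 1); omega
  rw [Minf_eq hn ω w (k := w.length + 1) (by omega),
    Minf_eq hn ω (w ++ [false]) (k := w.length + 1) (by simpa using h1),
    Minf_eq hn ω (w ++ [true]) (k := w.length + 1) (by simpa using h1)]
  exact Mst_mart n ω _ w

theorem word_true {n : ℕ → ℕ} (hn : Params n) (ω : Om wl) (k L : ℕ) (hL : L ≤ 5 * n k) :
    word k L (orc (Minf n ω) ω) = word k L (orc (Mst n ω k) ω) := by
  apply word_local hL (hn.goodL k)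
  intro q hq
  apply orc_congr
  intro r w t h
  exact Minf_eq hn ω w ((length_le_of_posR h).trans hq)

theorem Minf_win {n : ℕ → ℕ} (hn : Params n) (ω : Om wl) (k : ℕ) :
    (1 / 2) ^ (k + 2) * 2 ^ n k ≤ Minf n ω (word k (5 * n k) (orc (Minf n ω) ω)) := by
  rw [word_true hn ω k _ le_rfl]
  set W := word k (5 * n k) (orc (Mst n ω k) ω) with hW
  have hWl : W.length = 5 * n k := by simp [hW, word]
  have h1 : W.length ≤ n (k + 1) := by have := hn.grow k; omega
  rw [Minf_eq hn ω W h1]
  have h2 := nextM_eq k (n k) (mu n k (Mst n ω k)) (Mst n ω k) (adv n k (Mst n ω k) ω) W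
  have h3 := Mst_ge hn ω W k
  have h4 : (2 : ℝ) ^ n k ≤ prior (mu n k (Mst n ω k)) (n k) W +
      leak (n k) (adv n k (Mst n ω k) ω) W := by
    have p1 := prior_nonneg (mu_nonneg n k (Mst n ω k)) (sum_mu_le hn k _) W
    have p2 := leak_nonneg (n k) (adv n k (Mst n ω k) ω) W
    by_cases hc : mu n k (Mst n ω k) (word k (4 * n k) (orc (Mst n ω k) ω)) < 1 / 2 ^ (2 * n k)
    · have : adv n k (Mst n ω k) ω = some W := by simp only [adv, if_pos hc, hW]
      rw [this, leak_win _ _ hWl]
      linarith
    · have := prior_win (mu_nonneg n k (Mst n ω k)) (sum_mu_le hn k _)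
        (word k (4 * n k) (orc (Mst n ω k) ω)) W (by simp [word]) (by
          rw [hW]; unfold word
          rw [← take_firstBits _ (show 4 * n k ≤ 5 * n k by omega)]
          exact List.take_prefix _ _) (not_lt.1 hc)
      linarith
  have h5 : (1 / 2 : ℝ) ^ (k + 2) * 2 ^ n k ≤ (1 / 2) ^ (k + 2) *
      (prior (mu n k (Mst n ω k)) (n k) W + leak (n k) (adv n k (Mst n ω k) ω) W) := by gcongr
  have h6 : (0 : ℝ) < (1 / 2) ^ (k + 1) := by positivity
  simp only [Mst, nxt]
  linarith

theorem gale_win {n : ℕ → ℕ} (hn : Params n) (ω : Om wl) (k : ℕ) :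
    (2 : ℝ) ^ k ≤ galeOf (Minf n ω) (word k (5 * n k) (orc (Minf n ω) ω)) := by
  have h1 := Minf_win hn ω k
  have h2 := hn.big k
  unfold galeOf
  have hl : (word k (5 * n k) (orc (Minf n ω) ω)).length = 5 * n k := by simp [word]
  rw [hl]
  refine le_trans ?_ (mul_le_mul_of_nonneg_left h1 (by positivity))
  have e : (2 : ℝ) ^ (-((5 * n k : ℕ) : ℝ) / 10) * ((1 / 2) ^ (k + 2) * 2 ^ n k) =
      (2 : ℝ) ^ (-((5 * n k : ℕ) : ℝ) / 10 + (-((k + 2 : ℕ) : ℝ) + (n k : ℝ))) := by
    rw [Real.rpow_add (by norm_num), Real.rpow_add (by norm_num), Real.rpow_neg (by norm_num),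
      Real.rpow_natCast, Real.rpow_natCast]
    simp
  rw [e, ← Real.rpow_natCast]
  apply Real.rpow_le_rpow_of_exponent_le (by norm_num)
  have : (4 * k + 6 : ℝ) ≤ n k := by exact_mod_cast h2
  push_cast
  linarith

theorem succeeds_of_frequently (d : Str → ℝ) (X : ℕ → Bool)
    (h : ∀ C : ℝ, ∀ N, ∃ m, N ≤ m ∧ C ≤ d (firstBits X m)) : Succeeds d X := by
  unfold Succeeds
  rw [EReal.eq_top_iff_forall_lt]
  intro y
  have : ((y + 1 : ℝ) : EReal) ≤
      limsup (fun n => ((d (firstBits X n) : ℝ) : EReal)) atTop := by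
    refine le_limsup_of_frequently_le ?_
    rw [frequently_atTop]
    intro N
    obtain ⟨m, h1, h2⟩ := h (y + 1) N
    exact ⟨m, h1, EReal.coe_le_coe_iff.2 h2⟩
  exact lt_of_lt_of_le (EReal.coe_lt_coe_iff.2 (by linarith)) this

theorem not_succeeds_of_bounded (d : Str → ℝ) (X : ℕ → Bool) (B : ℝ) (N : ℕ)
    (h : ∀ m, N ≤ m → d (firstBits X m) ≤ B) : ¬ Succeeds d X := by
  unfold Succeeds
  have : limsup (fun n => ((d (firstBits X n) : ℝ) : EReal)) atTop ≤ (B : EReal) := by
    apply limsup_le_of_le
    · isBoundedDefault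
    · filter_upwards [eventually_ge_atTop N] with m hm
      exact EReal.coe_le_coe_iff.2 (h m hm)
  intro e
  rw [e] at this
  exact absurd this (not_le.2 (EReal.coe_lt_top B))

theorem helper_succeeds {n : ℕ → ℕ} (hn : Params n) (ω : Om wl) (L : Set Str)
    (hL : L ∈ NP (orc (Minf n ω) ω)) : Succeeds (galeOf (Minf n ω)) (charSeq L) := by
  obtain ⟨M, p, hh, hacc⟩ := hL
  obtain ⟨c, hc⟩ := poly_le_pow p
  apply succeeds_of_frequently
  intro C N
  obtain ⟨K, hK⟩ := pow_unbounded_of_one_lt C (show (1 : ℝ) < 2 by norm_num)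
  obtain ⟨k, hk, hM, hC⟩ := exists_stage M c (N + K)
  have hlang : lang k (orc (Minf n ω) ω) = L := by
    ext x
    rw [hacc x]
    subst hM
    simp only [lang, Set.mem_ofPred_eq, hC]
    apply exists_congr
    intro ch
    rw [OracleTM.run_of_halted _ _ x ch (hc x.length) (hh x ch)]
  refine ⟨5 * n k, by have := hn.big k; omega, ?_⟩
  have h1 := gale_win hn ω k
  unfold word at h1
  rw [hlang] at h1
  have h2 : (2 : ℝ) ^ K ≤ 2 ^ k := pow_le_pow_right₀ (by norm_num) (by omega)
  linarith

end Pool.Agent.MP_e55146_lc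

end

section

/-! Polynomial-time gamblers do not win too fast on the hidden language. -/

namespace Pool.Agent.MP_e55146_lc

open MeasureTheory Filter

open Classical in
/-- The rational written on the output tape. -/
noncomputable def outOf (M : OracleTM) (c : Config M) : ℚ :=
  if h : ∃ q, Holds (c.tape TapeName.output) (ratCode q) then h.choose else 0

theorem outOf_eq (M : OracleTM) (c : Config M) (q : ℚ)
    (h : Holds (c.tape TapeName.output) (ratCode q)) : outOf M c = q := by
  unfold outOf
  rw [dif_pos ⟨q, h⟩]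
  exact ratCode_inj
    ((Exists.choose_spec (⟨q, h⟩ : ∃ q, Holds (c.tape TapeName.output) (ratCode q))).unique h)

/-- The clock of gambler `e` at position `i`. -/
def tm (e i : ℕ) : ℕ := (2 * i + 4) ^ mcC e

/-- The decision tree of gambler `e` after the history `v`. -/
noncomputable def tree (e : ℕ) (v : Str) : DT (ℚ × ℚ) :=
  (mcM e).runTree (fun c0 => (mcM e).runTree
      (fun c1 => DT.leaf (outOf (mcM e) c0, outOf (mcM e) c1)) (tm e v.length)
      ((mcM e).init (inputCode (v.length + 1) (v ++ [true])))) (tm e v.length)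
    ((mcM e).init (inputCode (v.length + 1) (v ++ [false])))

theorem tree_ok (e : ℕ) (v : Str) : DT.Ok (tm e v.length) (2 * tm e v.length) (tree e v) := by
  have := (mcM e).ok_runTree (fun c0 => (mcM e).runTree
      (fun c1 => DT.leaf (outOf (mcM e) c0, outOf (mcM e) c1)) (tm e v.length)
      ((mcM e).init (inputCode (v.length + 1) (v ++ [true])))) (tm e v.length)
      (0 + tm e v.length)
      (fun c0 => (mcM e).ok_runTree _ (tm e v.length) 0 (fun c1 => DT.Ok.leaf _ _) _ _ 0
        ((mcM e).inv_init _) (by omega)) (tm e v.length)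
      ((mcM e).init (inputCode (v.length + 1) (v ++ [false]))) 0 ((mcM e).inv_init _) (by omega)
  rwa [zero_add, ← two_mul] at this

theorem eval_tree (e : ℕ) (v : Str) (A : Set Str) : (tree e v).eval A =
    (outOf (mcM e) ((mcM e).run A (inputCode (v.length + 1) (v ++ [false])) (fun _ => false)
      (tm e v.length)),
     outOf (mcM e) ((mcM e).run A (inputCode (v.length + 1) (v ++ [true])) (fun _ => false)
      (tm e v.length))) := by
  unfold tree
  rw [OracleTM.eval_runTree, OracleTM.eval_runTree, OracleTM.run_false, OracleTM.run_false]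
  rfl

/-- The smoothing constant. -/
noncomputable def KK : ℝ := (σ + 1) / (σ - 1)

theorem one_le_KK : 1 ≤ KK := by
  have := one_lt_σ
  unfold KK
  rw [le_div_iff₀ (by linarith)]
  linarith

/-- The smoothed capital. -/
noncomputable def ev (i : ℕ) (q : ℚ) : ℝ := max 0 (q : ℝ) + KK / 2 ^ i

theorem ev_pos (i : ℕ) (q : ℚ) : 0 < ev i q := by
  have := one_le_KK
  have h2 : 0 < KK / 2 ^ i := by positivity
  have := le_max_left 0 (q : ℝ)
  unfold ev; linarith

/-- The betting ratios. -/
noncomputable def ratio (i : ℕ) (z : ℚ × ℚ) (c : Bool) : ℝ :=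
  (if c then ev (i + 1) z.2 else ev (i + 1) z.1) / (ev (i + 1) z.1 + ev (i + 1) z.2)

theorem ratio_nonneg (i : ℕ) (z : ℚ × ℚ) (c : Bool) : 0 ≤ ratio i z c := by
  have h1 := ev_pos (i + 1) z.1
  have h2 := ev_pos (i + 1) z.2
  unfold ratio
  split_ifs <;> positivity

theorem ratio_sum (i : ℕ) (z : ℚ × ℚ) : ratio i z true + ratio i z false ≤ 1 := by
  have h1 := ev_pos (i + 1) z.1
  have h2 := ev_pos (i + 1) z.2
  unfold ratio
  simp only [if_true, Bool.false_eq_true, if_false]
  rw [← add_div, add_comm, div_self (by positivity)]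

/-- The gain of gambler `e`. -/
noncomputable def gain (e : ℕ) (X : ℕ → Bool) (A : Set Str) (m : ℕ) : ℝ :=
  gainFrom (tree e) ratio X A 0 m

theorem gain_succ (e : ℕ) (X : ℕ → Bool) (A : Set Str) (m : ℕ) :
    gain e X A (m + 1) = gain e X A m * (2 * ratio m ((tree e (firstBits X m)).eval A) (X m)) := by
  simp [gain, gainFrom, Finset.prod_range_succ]

theorem gain_nonneg (e : ℕ) (X : ℕ → Bool) (A : Set Str) (m : ℕ) : 0 ≤ gain e X A m := by
  unfold gain gainFrom
  exact Finset.prod_nonneg fun _ _ => mul_nonneg zero_le_two (ratio_nonneg _ _ _)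

theorem gain_add_le (e : ℕ) (X : ℕ → Bool) (A : Set Str) (m r : ℕ) :
    gain e X A (m + r) ≤ gain e X A m * 2 ^ r := by
  induction r with
  | zero => simp
  | succ r ih =>
    rw [← add_assoc, gain_succ, pow_succ, ← mul_assoc (gain e X A m)]
    have h1 := ratio_sum (m + r) ((tree e (firstBits X (m + r))).eval A)
    have h2 := ratio_nonneg (m + r) ((tree e (firstBits X (m + r))).eval A) true
    have h3 := ratio_nonneg (m + r) ((tree e (firstBits X (m + r))).eval A) false
    have h4 : ratio (m + r) ((tree e (firstBits X (m + r))).eval A) (X (m + r)) ≤ 1 := by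
      cases X (m + r) <;> linarith
    exact mul_le_mul ih (by linarith) (mul_nonneg zero_le_two (ratio_nonneg _ _ _))
      (mul_nonneg (gain_nonneg _ _ _ _) (by positivity))

/-- A computable gale is dominated by the gain of some gambler. -/
theorem gale_le_gain (A : Set Str) (s : ℝ) (hs : s ≤ 1 / 32) (d : Str → ℝ) (hd : IsGale s d)
    (hc : PComputable A d) : ∃ (e : ℕ) (E0 : ℝ), 0 ≤ E0 ∧ ∀ (X : ℕ → Bool) (m : ℕ),
      d (firstBits X m) ≤ E0 * σ ^ m / 2 ^ m * gain e X A m := by
  obtain ⟨dh, M, p, -, hrun, happ⟩ := hc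
  obtain ⟨c, hcp⟩ := poly_le_pow p
  obtain ⟨e, -, rfl, rfl⟩ := exists_stage M c 0
  let E : Str → ℝ := fun w => ev w.length (dh (w.length, w))
  have hσ := one_lt_σ
  have hK := one_le_KK
  have h2s : (2 : ℝ) ^ s ≤ σ := Real.rpow_le_rpow_of_exponent_le (by norm_num) hs
  have hdE : ∀ w, d w ≤ E w := by
    intro w
    have h1 := (abs_le.1 (happ w.length w)).1
    have h2 := le_max_right 0 (dh (w.length, w) : ℝ)
    have h3 : 1 / (2 : ℝ) ^ w.length ≤ KK / 2 ^ w.length := by gcongr
    simp only [E, ev]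
    linarith
  have hstep : ∀ w, E (w ++ [false]) + E (w ++ [true]) ≤ σ * E w := by
    intro w
    have hm : ∀ u : Str, max 0 (dh (u.length, u) : ℝ) ≤ d u + 1 / 2 ^ u.length := by
      intro u
      have h1 := (abs_le.1 (happ u.length u)).2
      have h2 := hd.1 u
      have h3 : (0 : ℝ) ≤ 1 / 2 ^ u.length := by positivity
      exact max_le (by linarith) (by linarith)
    have h1 := hm (w ++ [false])
    have h2 := hm (w ++ [true])
    have h3 := (abs_le.1 (happ w.length w)).1
    have h4 := le_max_right 0 (dh (w.length, w) : ℝ)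
    have h5 : d (w ++ [false]) + d (w ++ [true]) = 2 ^ s * d w := by
      rw [hd.2 w, ← mul_assoc, ← Real.rpow_add (by norm_num)]
      simp
    have h6 : 2 ^ s * d w ≤ σ * d w := mul_le_mul_of_nonneg_right h2s (hd.1 w)
    simp only [E, ev, List.length_append, List.length_singleton] at h1 h2 ⊢
    set ε : ℝ := 1 / 2 ^ w.length with hε
    have e1 : (1 : ℝ) / 2 ^ (w.length + 1) = ε / 2 := by rw [hε, pow_succ]; field_simp
    have e2 : KK / 2 ^ (w.length + 1) = KK * ε / 2 := by rw [hε, pow_succ]; field_simp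
    have e3 : KK / 2 ^ w.length = KK * ε := by rw [hε]; field_simp
    have e4 : KK * (σ - 1) = σ + 1 := by
      unfold KK
      have : σ - 1 ≠ 0 := by linarith
      field_simp
    rw [e1] at h1 h2
    rw [e2, e3]
    have h7 : σ * d w ≤ σ * (max 0 (dh (w.length, w) : ℝ) + ε) := by
      apply mul_le_mul_of_nonneg_left _ (by linarith)
      linarith
    have e5 : σ * (KK * ε) = (σ + 1 + KK) * ε := by rw [← e4]; ring
    nlinarith
  have heval : ∀ v : Str, (tree e v).eval A =
      (dh (v.length + 1, v ++ [false]), dh (v.length + 1, v ++ [true])) := by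
    intro v
    have key : ∀ b : Bool, outOf (mcM e) ((mcM e).run A (inputCode (v.length + 1) (v ++ [b]))
        (fun _ => false) (tm e v.length)) = dh (v.length + 1, v ++ [b]) := by
      intro b
      have h1 := hrun (v.length + 1) (v ++ [b]) (fun _ => false)
      have h2 : p.eval (v.length + 1 + (v ++ [b]).length) ≤ tm e v.length := by
        refine (hcp _).trans (le_of_eq ?_)
        simp only [tm, List.length_append, List.length_singleton]
        congr 1; ring
      rw [OracleTM.run_of_halted _ _ _ _ h2 h1.1]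
      exact outOf_eq _ _ _ h1.2
    rw [eval_tree, key, key]
  refine ⟨e, E [], (ev_pos _ _).le, fun X m => (hdE _).trans ?_⟩
  induction m with
  | zero => simp [gain, gainFrom]
  | succ m ih =>
    rw [gain_succ, heval, firstBits_succ]
    set v := firstBits X m with hv
    have hl : v.length = m := by simp [hv]
    have h1 : E (v ++ [X m]) = ratio m (dh (v.length + 1, v ++ [false]),
        dh (v.length + 1, v ++ [true])) (X m) * (E (v ++ [false]) + E (v ++ [true])) := by
      have p1 := ev_pos (m + 1) (dh (m + 1, v ++ [false]))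
      have p2 := ev_pos (m + 1) (dh (m + 1, v ++ [true]))
      simp only [E, ratio, List.length_append, List.length_singleton, hl]
      rw [div_mul_cancel₀ _ (by positivity)]
      cases X m <;> simp
    rw [h1]
    set ρ := ratio m (dh (v.length + 1, v ++ [false]), dh (v.length + 1, v ++ [true])) (X m)
    have hρ : 0 ≤ ρ := ratio_nonneg _ _ _
    calc ρ * (E (v ++ [false]) + E (v ++ [true])) ≤ ρ * (σ * E v) := by
          gcongr; exact hstep v
      _ ≤ ρ * (σ * (E [] * σ ^ m / 2 ^ m * gain e X A m)) := by gcongr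
      _ = _ := by rw [pow_succ, pow_succ]; field_simp

/-- The constant in the expected gain. -/
noncomputable def CC (e : ℕ) : ℝ := (gamma_le (mcC e)).choose

theorem CC_pos (e : ℕ) : 0 < CC e := (gamma_le (mcC e)).choose_spec.1

theorem gain_prob (e : ℕ) (M : Str → ℝ) (m : ℕ) (t : ℝ) (ht : 0 < t) :
    (Pr wl).real {ω | t ≤ gain e (bits ω) (orc M ω) m} ≤ CC e * (σ ^ 2) ^ m / t := by
  refine (gain_tail wl_mono (orc_dich M) (tree e) ratio ratio_nonneg ratio_sum
    (fun i => 2 * tm e i) (tm e) (tree_ok e) m t ht).trans ?_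
  gcongr
  exact (gamma_le (mcC e)).choose_spec.2 m

/-- The geometric constant. -/
noncomputable def c0 : ℝ := (1 - (σ ^ 2)⁻¹)⁻¹

theorem inv_σ_sq_lt : (σ ^ 2)⁻¹ < 1 := inv_lt_one_of_one_lt₀ (one_lt_pow₀ one_lt_σ (by norm_num))

theorem c0_pos : 0 < c0 := inv_pos.2 (by linarith [inv_σ_sq_lt])

theorem sum_geom_le (N : ℕ) : ∑ m ∈ Finset.range N, ((σ ^ 2)⁻¹) ^ m ≤ c0 := by
  have h0 : 0 ≤ (σ ^ 2)⁻¹ := by positivity
  have := hasSum_geometric_of_lt_one h0 inv_σ_sq_lt
  exact sum_le_hasSum _ (fun _ _ => by positivity) this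

variable (n : ℕ → ℕ)

/-- The gain is too large. -/
def BadGain (κ : ℕ) : Set (Om wl) :=
  ⋃ e ∈ Finset.range (κ + 1), ⋃ M ∈ MS n κ, ⋃ m ∈ Finset.range (n κ + 1),
    {ω | CC e * c0 * 2 ^ budget n κ * (σ ^ 4) ^ m ≤ gain e (bits ω) (orc (nxt n κ M none) ω) m}

/-- The query `q` guesses the unlikely word of stage `κ`. -/
def Gs (κ : ℕ) (M : Str → ℝ) (q : Str) : Set (Om wl) :=
  {ω | ∃ r w t, q = posR (inputCode r w) t ∧ word κ (4 * n κ) (orc M ω) = w.take (4 * n κ) ∧
    mu n κ M (w.take (4 * n κ)) < 1 / 2 ^ (2 * n κ)}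

/-- The word of stage `κ` is guessed too early. -/
def BadGuess (κ : ℕ) : Set (Om wl) :=
  ⋃ e ∈ Finset.range (κ + 1), ⋃ M ∈ MS n κ,
    {ω | ∃ i < n κ, ∃ q ∈ (tree e (firstBits (bits ω) i)).queries (orc (nxt n κ M none) ω),
      ω ∈ Gs n κ M q}

theorem prob_Gs (κ : ℕ) (M : Str → ℝ) (q : Str) :
    (Pr wl).real (Gs n κ M q) ≤ 1 / 2 ^ (2 * n κ) := by
  rcases (Gs n κ M q).eq_empty_or_nonempty with h | ⟨ω0, r, w, t, hq, -, hμ⟩
  · rw [h, measureReal_empty]; positivity
  · refine le_trans (measureReal_mono ?_) hμ.le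
    rintro ω ⟨r', w', t', hq', h1, -⟩
    obtain ⟨h2, -⟩ := posR_inj (hq.symm.trans hq')
    obtain ⟨-, rfl⟩ := inputCode_inj h2
    exact h1

theorem double_union_le {n : ℕ → ℕ} (hn : Params n) (κ : ℕ) (S : ℕ → (Str → ℝ) → Set (Om wl))
    (h : ∀ e ≤ κ, ∀ M, (Pr wl).real (S e M) ≤ 1 / 2 ^ budget n κ) :
    (Pr wl).real (⋃ e ∈ Finset.range (κ + 1), ⋃ M ∈ MS n κ, S e M) ≤ 1 / 8 * (1 / 2) ^ κ := by
  have hc : (((κ + 1) * (MS n κ).card * 2 ^ (κ + 3) : ℕ) : ℝ) ≤ ((2 ^ budget n κ : ℕ) : ℝ) := by
    exact_mod_cast card_MS hn κ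
  push_cast at hc
  calc _ ≤ _ := measureReal_biUnion_finset_le _ _
    _ ≤ ∑ e ∈ Finset.range (κ + 1), (MS n κ).card * (1 / (2 : ℝ) ^ budget n κ) := by
      apply Finset.sum_le_sum
      intro e he
      refine (measureReal_biUnion_finset_le _ _).trans ?_
      rw [← nsmul_eq_mul, ← Finset.sum_const]
      exact Finset.sum_le_sum fun M _ => h e (Nat.lt_succ_iff.1 (Finset.mem_range.1 he)) M
    _ = (κ + 1) * (MS n κ).card / (2 : ℝ) ^ budget n κ := by
      rw [Finset.sum_const, nsmul_eq_mul, Finset.card_range]; push_cast; ring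
    _ ≤ _ := by
      rw [div_le_iff₀ (by positivity)]
      have e : (1 / 8 * (1 / 2) ^ κ : ℝ) = 1 / 2 ^ (κ + 3) := by
        rw [pow_add, one_div_pow]; field_simp; norm_num
      rw [e, one_div_mul_eq_div, le_div_iff₀ (by positivity)]
      exact hc

theorem prob_BadGain {n : ℕ → ℕ} (hn : Params n) (κ : ℕ) :
    (Pr wl).real (BadGain n κ) ≤ 1 / 8 * (1 / 2) ^ κ := by
  apply double_union_le hn
  intro e _ M
  have h1 := CC_pos e
  have h2 := c0_pos
  have h3 : 0 < σ := by linarith [one_lt_σ]
  calc _ ≤ _ := measureReal_biUnion_finset_le _ _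
    _ ≤ ∑ m ∈ Finset.range (n κ + 1), ((σ ^ 2)⁻¹) ^ m / (c0 * 2 ^ budget n κ) := by
      apply Finset.sum_le_sum
      intro m _
      refine (gain_prob e _ m _ (by positivity)).trans (le_of_eq ?_)
      rw [inv_pow, show σ ^ 4 = σ ^ 2 * σ ^ 2 by ring, mul_pow]
      field_simp
    _ ≤ c0 / (c0 * 2 ^ budget n κ) := by
      rw [← Finset.sum_div]
      gcongr
      exact sum_geom_le _
    _ = _ := by field_simp

theorem prob_BadGuess {n : ℕ → ℕ} (hn : Params n) (κ : ℕ) :
    (Pr wl).real (BadGuess n κ) ≤ 1 / 8 * (1 / 2) ^ κ := by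
  apply double_union_le hn
  intro e he M
  obtain ⟨low, hlow, hG⟩ := hn.goodG κ
  refine (guess_bound wl_mono (orc_dich _) (tree e) (fun i => 2 * tm e i) (tm e) (tree_ok e)
    low (n κ) (2 * (2 * n κ + 4) ^ κ) hlow ?_ (Gs n κ M) _ (by positivity) (prob_Gs n κ M)).trans ?_
  · intro i hi
    apply Nat.mul_le_mul_left
    exact (Nat.pow_le_pow_left (by omega) _).trans
      (Nat.pow_le_pow_right (by omega) ((mcC_le e).trans he))
  · rw [le_div_iff₀ (by positivity), mul_comm]
    exact hG

theorem exists_good_omega {n : ℕ → ℕ} (hn : Params n) :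
    ∃ ω, ∀ κ, ω ∉ BadGain n κ ∧ ω ∉ BadGuess n κ := by
  obtain ⟨ω, h⟩ := exists_avoid (fun κ => BadGain n κ ∪ BadGuess n κ) (fun κ => by
    refine (measureReal_union_le _ _).trans ?_
    have := prob_BadGain hn κ
    have := prob_BadGuess hn κ
    linarith)
  exact ⟨ω, fun κ => ⟨fun h' => h κ (Or.inl h'), fun h' => h κ (Or.inr h')⟩⟩

theorem gain_true {n : ℕ → ℕ} (hn : Params n) (ω : Om wl) (κ e : ℕ) (he : e ≤ κ)
    (hG : ω ∉ BadGuess n κ) (m : ℕ) (hm : m ≤ n κ) :
    gain e (bits ω) (orc (Minf n ω) ω) m = gain e (bits ω) (orc (nxt n κ (Mst n ω κ) none) ω) m := by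
  unfold gain gainFrom
  apply Finset.prod_congr rfl
  intro i hi
  have hi' : i < n κ := (Finset.mem_range.1 hi).trans_le hm
  rw [zero_add, (DT.agree _ (orc (Minf n ω) ω) (orc (nxt n κ (Mst n ω κ) none) ω) _).1]
  intro q hq
  apply orc_congr
  intro r w t hqe
  have h1 : q.length ≤ tm e i := by
    have := (tree_ok e (firstBits (bits ω) i)).len_of_mem _ q hq
    rwa [length_firstBits] at this
  have h2 : w.length ≤ n (κ + 1) := by
    refine (length_le_of_posR hqe).trans (h1.trans (le_trans ?_ (hn.reach κ)))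
    exact (Nat.pow_le_pow_left (by omega) _).trans
      (Nat.pow_le_pow_right (by omega) ((mcC_le e).trans he))
  rw [Minf_eq hn ω w h2]
  simp only [Mst, nxt, nextM]
  congr 3
  unfold adv
  split_ifs with hc
  · simp only [leak]
    have e4 : (word κ (5 * n κ) (orc (Mst n ω κ) ω)).take (4 * n κ) =
        word κ (4 * n κ) (orc (Mst n ω κ) ω) := take_firstBits _ (by omega)
    rw [e4]
    congr 1
    apply boost_of_not
    intro hpre
    have e5 : word κ (4 * n κ) (orc (Mst n ω κ) ω) = w.take (4 * n κ) := by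
      have := List.prefix_iff_eq_take.1 hpre
      rwa [show (word κ (4 * n κ) (orc (Mst n ω κ) ω)).length = 4 * n κ by simp [word]] at this
    apply hG
    simp only [BadGuess, Set.mem_iUnion]
    exact ⟨e, Finset.mem_range.2 (by omega), Mst n ω κ, Mst_mem n ω κ, i, hi', q, hq, r, w, t, hqe,
      e5, e5 ▸ hc⟩
  · rfl

theorem gain_small {n : ℕ → ℕ} (hn : Params n) (ω : Om wl)
    (hω : ∀ κ, ω ∉ BadGain n κ ∧ ω ∉ BadGuess n κ) (e κ m : ℕ) (he : e ≤ κ)
    (h1 : 16 * n κ ≤ m) (h2 : m ≤ n (κ + 1)) :
    gain e (bits ω) (orc (Minf n ω) ω) m ≤ CC e * c0 * σ ^ (16 * m) := by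
  rw [gain_true hn ω (κ + 1) e (by omega) (hω _).2 m h2]
  have h3 := (hω (κ + 1)).1
  simp only [BadGain, Set.mem_iUnion, not_exists, Set.mem_ofPred_eq, not_le] at h3
  refine (h3 e (Finset.mem_range.2 (by omega)) _ (Mst_mem n ω _) m
    (Finset.mem_range.2 (by omega))).le.trans ?_
  have p1 := CC_pos e
  have p2 := c0_pos
  rw [mul_assoc (CC e * c0)]
  gcongr
  rw [← σ_pow, ← pow_mul, ← pow_mul, ← pow_add]
  apply pow_le_pow_right₀ one_lt_σ.le
  simp only [budget]
  omega

theorem gain_bound {n : ℕ → ℕ} (hn : Params n) (ω : Om wl)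
    (hω : ∀ κ, ω ∉ BadGain n κ ∧ ω ∉ BadGuess n κ) (e m : ℕ) (hm : 16 * n e ≤ m) :
    gain e (bits ω) (orc (Minf n ω) ω) m ≤ CC e * c0 * σ ^ (31 * m) := by
  have hex : ∃ κ, m < 16 * n (e + κ + 1) := ⟨m, by have := hn.big (e + m + 1); omega⟩
  obtain ⟨κ, hκ1, hκ2⟩ : ∃ κ, e ≤ κ ∧ 16 * n κ ≤ m ∧ m < 16 * n (κ + 1) := by
    refine ⟨e + Nat.find hex, by omega, ?_, Nat.find_spec hex⟩
    rcases Nat.eq_zero_or_pos (Nat.find hex) with h0 | h0
    · rw [h0]; exact hm
    · have := Nat.find_min hex (m := Nat.find hex - 1) (by omega)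
      rw [show e + (Nat.find hex - 1) + 1 = e + Nat.find hex by omega] at this
      omega
  have p1 := CC_pos e
  have p2 := c0_pos
  have p3 := one_lt_σ
  rcases le_total m (n (κ + 1)) with h | h
  · refine (gain_small hn ω hω e κ m hκ1 hκ2.1 h).trans ?_
    gcongr
    · exact p3.le
    · omega
  · obtain ⟨r, rfl⟩ := Nat.exists_eq_add_of_le h
    refine (gain_add_le _ _ _ _ _).trans ?_
    have := gain_small hn ω hω e κ (n (κ + 1)) hκ1 (hn.grow κ) le_rfl
    calc _ ≤ CC e * c0 * σ ^ (16 * n (κ + 1)) * 2 ^ r := by gcongr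
      _ = CC e * c0 * σ ^ (16 * n (κ + 1) + 32 * r) := by rw [pow_add, pow_mul σ 32, σ_pow]; ring
      _ ≤ _ := by
        gcongr
        · exact p3.le
        · omega

theorem hidden_hard {n : ℕ → ℕ} (hn : Params n) (ω : Om wl)
    (hω : ∀ κ, ω ∉ BadGain n κ ∧ ω ∉ BadGuess n κ) (s : ℝ) (hs : s ≤ 1 / 32) (d : Str → ℝ)
    (hd : IsGale s d) (hc : PComputable (orc (Minf n ω) ω) d) : ¬ Succeeds d (bits ω) := by
  obtain ⟨e, E0, hE0, h⟩ := gale_le_gain _ s hs d hd hc
  apply not_succeeds_of_bounded d _ (E0 * (CC e * c0)) (16 * n e)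
  intro m hm
  have p3 : 0 < σ := by linarith [one_lt_σ]
  refine (h _ m).trans ?_
  calc _ ≤ E0 * σ ^ m / 2 ^ m * (CC e * c0 * σ ^ (31 * m)) := by
        gcongr
        exact gain_bound hn ω hω e m hm
    _ = _ := by
        rw [← σ_pow, ← pow_mul, show 32 * m = m + 31 * m by ring, pow_add]
        field_simp

theorem main_theorem : ∃ A : Set Str, 1 / 32 ≤ dimP A (NP A) ∧ dimP A (NP A) ≤ 9 / 10 := by
  obtain ⟨n, hn⟩ := exists_params
  obtain ⟨ω, hω⟩ := exists_good_omega hn
  refine ⟨orc (Minf n ω) ω, ?_⟩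
  set S := {s : ℝ | 0 ≤ s ∧ ∃ d : Str → ℝ, IsGale s d ∧ PComputable (orc (Minf n ω) ω) d ∧
    ∀ L ∈ NP (orc (Minf n ω) ω), Succeeds d (charSeq L)} with hS
  have h1 : (9 / 10 : ℝ) ∈ S :=
    ⟨by norm_num, galeOf (Minf n ω), galeOf_isGale (Minf_mart hn ω) (Minf_nonneg hn ω),
      galeOf_pcomputable (Minf_mart hn ω) (Minf_nonneg hn ω) (Minf_nil n ω) ω,
      helper_succeeds hn ω⟩
  have h2 : ∀ s ∈ S, (1 / 32 : ℝ) ≤ s := by
    rintro s ⟨-, d, hd, hc, hL⟩
    by_contra hlt
    have := hL _ (hidden_mem_NP (Minf n ω) ω)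
    rw [charSeq_hidden] at this
    exact hidden_hard hn ω hω s (not_le.1 hlt).le d hd hc this
  exact ⟨le_csInf ⟨_, h1⟩ h2, csInf_le ⟨_, h2⟩ h1⟩

end Pool.Agent.MP_e55146_lc

end
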